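import Pool.Agent.H23.S6E.Vdf

/-!
# One rectangle of the U-step: a path of boxes

The deficit of the rows beyond a static box, at two windows of a rectangle on which the U-step
holds on average.
-/

set_option autoImplicit false

namespace Pool.S6D

open Finset Real
open Pool.Agent.H49.Ent Pool.Agent.H32.Dense Pool.STK Pool.KA Pool.K2S Pool.KA.Vd

section avg

theorem sum_rows (g : ℕ → ℝ) (n h : ℕ) : ∑ w ∈ Finset.range (n * h), g w =
    ∑ i ∈ Finset.range n, ∑ o ∈ Finset.range h, g (i * h + o) := by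
  induction n with
  | zero => simp
  | succ n ih =>
    have e2 : (n + 1) * h = n * h + h := by ring
    rw [e2, Finset.sum_range_add, ih, Finset.sum_range_succ]

/-- A residue class with a small sum. -/
theorem exists_res (f : ℕ → ℝ) {n h : ℕ} (hh : 1 ≤ h) :
    ∃ o < h, ∑ i ∈ Finset.range n, f (i * h + o) ≤
      (∑ w ∈ Finset.range (n * h), f w) / h := by
  have hhr : (0 : ℝ) < h := by exact_mod_cast hh
  have e1 : ∑ w ∈ Finset.range (n * h), f w =
      ∑ o ∈ Finset.range h, ∑ i ∈ Finset.range n, f (i * h + o) := by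
    rw [sum_rows, Finset.sum_comm]
  have hne : (Finset.range h).Nonempty := ⟨0, Finset.mem_range.2 (by omega)⟩
  obtain ⟨o, ho, h1⟩ := Finset.exists_le_of_sum_le (s := Finset.range h)
    (f := fun o : ℕ => ∑ i ∈ Finset.range n, f (i * h + o))
    (g := fun _ => (∑ w ∈ Finset.range (n * h), f w) / h) hne (by
      rw [← e1, Finset.sum_const, Finset.card_range, nsmul_eq_mul]
      exact le_of_eq (by field_simp))
  exact ⟨o, Finset.mem_range.1 ho, h1⟩

/-- A value of `q` with a small sum. -/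
theorem exists_q (f : ℕ → ℝ) {ql : ℕ} (hq : 1 ≤ ql) {S : ℝ}
    (hS : ∑ q ∈ Finset.range ql, f q ≤ S) : ∃ q < ql, f q ≤ S / ql := by
  have hqr : (0 : ℝ) < ql := by exact_mod_cast hq
  have hne : (Finset.range ql).Nonempty := ⟨0, Finset.mem_range.2 (by omega)⟩
  obtain ⟨q, hq1, h1⟩ := Finset.exists_le_of_sum_le (s := Finset.range ql)
    (f := f) (g := fun _ => S / ql) hne (by
      rw [Finset.sum_const, Finset.card_range, nsmul_eq_mul]
      refine hS.trans (le_of_eq (by field_simp)))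
  exact ⟨q, Finset.mem_range.1 hq1, h1⟩

end avg

variable {J : ℕ} {F : Fam 3 J} {p : F.Ω → ℝ} {σ : Fin 3 → Fin 3} {a s t : F.Ω → ℝ}
  {τ τ' : Type}

/-- The deficit of a block of `X` rows beyond a static box. -/
noncomputable def dfc (F : Fam 3 J) (p : F.Ω → ℝ) (σ : Fin 3 → Fin 3) (X r U N : ℕ)
    (a s t : F.Ω → ℝ) {τ : Type} (Θ : F.Ω → τ) : ℝ :=
  2 * X * Real.log 2 -
    CH p (F.sbx σ (r + X) (U + X) N a s t) (fun ω => (F.sbx σ r U N a s t ω, Θ ω))

theorem dfc_nonneg (hp : IsLaw p) (X r U N : ℕ) (Θ : F.Ω → τ) : 0 ≤ dfc F p σ X r U N a s t Θ := by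
  have k := CH_sbx_rate (σ := σ) (a := a) (s := s) (t := t) (r := r) (U := U) (P := N)
    (r' := r + X) (U' := U + X) hp (Nat.le_add_right r X) (Nat.le_add_right U X) (le_refl N)
    (fun ω => (F.sbx σ r U N a s t ω, Θ ω)) (fun _ _ _ _ e => (Prod.ext_iff.mp e).1)
  unfold dfc
  push_cast at k
  linarith

/-- The deficit in a larger condition, with a finer normal coordinate. -/
theorem dfc_mono (hp : IsLaw p) {X r U N N' : ℕ} (hN : N ≤ N') (Θ : F.Ω → τ) (Θ' : F.Ω → τ')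
    (hΘ : Det p Θ' Θ) : dfc F p σ X r U N a s t Θ ≤ dfc F p σ X r U N' a s t Θ' := by
  have h0 := hp.nonneg
  have k1 : CH p (F.sbx σ (r + X) (U + X) N' a s t) (fun ω => (F.sbx σ r U N' a s t ω, Θ' ω)) ≤
      CH p (F.sbx σ (r + X) (U + X) N a s t) (fun ω => (F.sbx σ r U N' a s t ω, Θ' ω)) := by
    refine CH_mono_left h0 ?_
    intro ω ω' _ _ e
    have e1 := Prod.ext_iff.mp e
    have e2 := (sbx_ext).1 e1.1
    have e3 := (sbx_ext).1 (Prod.ext_iff.mp e1.2).1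
    rw [sbx_ext]
    exact ⟨e2.1, e2.2.1, e2.2.2.1, e3.2.2.2⟩
  have k2 : CH p (F.sbx σ (r + X) (U + X) N a s t) (fun ω => (F.sbx σ r U N' a s t ω, Θ' ω)) ≤
      CH p (F.sbx σ (r + X) (U + X) N a s t) (fun ω => (F.sbx σ r U N a s t ω, Θ ω)) :=
    CH_mono_cond h0 fun ω ω' x y e => Prod.ext
      (sbx_lift le_rfl le_rfl hN (Prod.ext_iff.mp e).1) (hΘ ω ω' x y (Prod.ext_iff.mp e).2)
  unfold dfc
  linarith

/-- One step of a path. -/
theorem vdf_blk (hp : IsLaw p) {r U N r' U' X : ℕ} {B : ℝ} (hB : 1 ≤ B)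
    (h1 : r ≤ r') (h2 : U ≤ U') (h3 : r' ≤ N) (h4 : U' ≤ N) (h5 : r' ≤ r + X) (h6 : U' ≤ U + X)
    (hb : ∀ ω, 0 < p ω → |a ω| ≤ B ∧ |s ω| ≤ B ∧ |t ω| ≤ B) (Θ : F.Ω → τ) :
    F.vdf p σ r U N a s t Θ ≤ dfc F p σ X r U N a s t Θ + F.vdf p σ r' U' N a s t Θ + K1 B := by
  have h0 := hp.nonneg
  have k1 := vdf_path (σ := σ) (a := a) (s := s) (t := t) hp hB h1 h2 h3 h4 hb Θ
  have k2 := CH_le_add h0 (F.sbx σ (r + X) (U + X) N a s t) (F.sbx σ r' U' N a s t)
    (fun ω => (F.sbx σ r U N a s t ω, Θ ω))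
  have k3 := CH_sbx_rate (σ := σ) (a := a) (s := s) (t := t) (r := r') (U := U') (P := N)
    (r' := r + X) (U' := U + X) hp h5 h6 (le_refl N)
    (fun ω => (F.sbx σ r' U' N a s t ω, (F.sbx σ r U N a s t ω, Θ ω)))
    (fun _ _ _ _ e => (Prod.ext_iff.mp e).1)
  unfold dfc
  push_cast at k3
  have e : ((r : ℝ) + X - r' + (U + X - U') + (N - N)) * Real.log 2 =
    2 * X * Real.log 2 - ((r' - r) + (U' - U)) * Real.log 2 := by ring
  rw [e] at k3
  linarith

/-- The rough bound of a step. -/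
theorem vdf_lip (hp : IsLaw p) {r U N r' U' : ℕ} {B : ℝ} (hB : 1 ≤ B)
    (h1 : r ≤ r') (h2 : U ≤ U') (h3 : r' ≤ N) (h4 : U' ≤ N)
    (hb : ∀ ω, 0 < p ω → |a ω| ≤ B ∧ |s ω| ≤ B ∧ |t ω| ≤ B) (Θ : F.Ω → τ) :
    F.vdf p σ r U N a s t Θ ≤ (((r' : ℝ) - r) + ((U' : ℝ) - U)) * Real.log 2 +
      F.vdf p σ r' U' N a s t Θ + K1 B := by
  have k1 := vdf_path (σ := σ) (a := a) (s := s) (t := t) hp hB h1 h2 h3 h4 hb Θ
  have k2 := CH_nonneg hp.nonneg (F.sbx σ r' U' N a s t)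
    (fun ω => (F.sbx σ r U N a s t ω, Θ ω))
  linarith

/-- A path of blocks. -/
theorem vdf_seq (hp : IsLaw p) {N X : ℕ} {B : ℝ} (hB : 1 ≤ B)
    (hb : ∀ ω, 0 < p ω → |a ω| ≤ B ∧ |s ω| ≤ B ∧ |t ω| ≤ B) (Θ : F.Ω → τ) (r U : ℕ → ℕ) :
    ∀ n : ℕ, (∀ i < n, r i ≤ r (i + 1)) → (∀ i < n, U i ≤ U (i + 1)) →
    (∀ i < n, r (i + 1) ≤ N) → (∀ i < n, U (i + 1) ≤ N) →
    (∀ i < n, r (i + 1) ≤ r i + X) → (∀ i < n, U (i + 1) ≤ U i + X) →
    F.vdf p σ (r 0) (U 0) N a s t Θ ≤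
      ∑ i ∈ Finset.range n, dfc F p σ X (r i) (U i) N a s t Θ + n * K1 B +
        F.vdf p σ (r n) (U n) N a s t Θ := by
  intro n
  induction n with
  | zero => intro _ _ _ _ _ _; simp
  | succ n ih =>
    intro h1 h2 h3 h4 h5 h6
    have k1 := ih (fun i hi => h1 i (by omega)) (fun i hi => h2 i (by omega))
      (fun i hi => h3 i (by omega)) (fun i hi => h4 i (by omega)) (fun i hi => h5 i (by omega))
      (fun i hi => h6 i (by omega))
    have k2 := vdf_blk (σ := σ) (a := a) (s := s) (t := t) (X := X) hp hB (h1 n (by omega))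
      (h2 n (by omega)) (h3 n (by omega)) (h4 n (by omega)) (h5 n (by omega)) (h6 n (by omega)) hb Θ
    rw [Finset.sum_range_succ]
    push_cast
    linarith

theorem K1_nonneg {B : ℝ} (hB : 1 ≤ B) : 0 ≤ K1 B := by
  unfold K1
  have : 0 ≤ Real.log (6 * B + 3) := Real.log_nonneg (by linarith)
  positivity

/-- **The rectangle in one frame**, for one velocity scale `q`. -/
theorem piece_al (hp : IsLaw p) {B S : ℝ} (hB : 1 ≤ B)
    (hb : ∀ ω, 0 < p ω → |a ω| ≤ B ∧ |s ω| ≤ B ∧ |t ω| ≤ B) {wa wb h X q N : ℕ} {vp : ℕ → ℕ}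
    (hh : 1 ≤ h) (hw : wa ≤ wb)
    (mono : ∀ w w', wa ≤ w → w ≤ w' → w' ≤ wb → vp w ≤ vp w')
    (inc : ∀ w w', wa ≤ w → w ≤ w' → w' ≤ w + h → w' ≤ wb → w' + vp w' ≤ w + vp w + X)
    (hN : wb + vp wb + q ≤ N) (Θ : F.Ω → τ)
    (hS : ∑ w ∈ Finset.range ((wb - wa) / h * h),
      dfc F p σ X (wa + w + q) (wa + w + vp (wa + w) + q) N a s t Θ ≤ S) :
    F.vdf p σ (wa + q) (wa + vp wa + q) N a s t Θ ≤
      F.vdf p σ (wb + q) (wb + vp wb + q) N a s t Θ +
        (S / h + 6 * X * Real.log 2 + (((wb - wa) / h : ℕ) + 2) * K1 B) := by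
  have hu0 : 0 < Real.log 2 := Real.log_pos (by norm_num)
  have hK := K1_nonneg hB
  have hX0 : (0 : ℝ) ≤ X := Nat.cast_nonneg X
  have hhr : (0 : ℝ) < h := by exact_mod_cast hh
  -- the levels
  have lv : ∀ w w' : ℕ, wa ≤ w → w ≤ w' → w' ≤ wb → w + vp w ≤ w' + vp w' := by
    intro w w' h1 h2 h3
    have := mono w w' h1 h2 h3
    omega
  obtain ⟨n, hn⟩ : ∃ n, n = (wb - wa) / h := ⟨_, rfl⟩
  rw [← hn] at hS ⊢
  have hn1 : n * h ≤ wb - wa := by rw [hn]; exact Nat.div_mul_le_self _ _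
  have hn2 : wb - wa < n * h + h := by
    rw [hn]
    exact Nat.lt_div_mul_add (a := wb - wa) (b := h) (by omega)
  obtain ⟨o, ho, hsum⟩ := exists_res (n := n)
    (fun w => dfc F p σ X (wa + w + q) (wa + w + vp (wa + w) + q) N a s t Θ) hh
  have hsum' := hsum.trans (div_le_div_of_nonneg_right hS hhr.le)
  have hS0 : 0 ≤ S / h :=
    le_trans (Finset.sum_nonneg fun i _ => dfc_nonneg hp _ _ _ _ _) hsum'
  have h6 : 0 ≤ (X : ℝ) * Real.log 2 := by positivity
  rcases Nat.eq_zero_or_pos n with hn0 | hn0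
  · -- a short rectangle
    subst hn0
    have hwb : wb ≤ wa + h := by omega
    have i1 := inc wa wb le_rfl hw hwb le_rfl
    have i2 := mono wa wb le_rfl hw le_rfl
    have k1 := vdf_lip (σ := σ) (a := a) (s := s) (t := t) (N := N) (r := wa + q)
      (U := wa + vp wa + q) (r' := wb + q) (U' := wb + vp wb + q) hp hB (by omega) (by omega)
      (by omega) (by omega) hb Θ
    have e1 : (((wb + q : ℕ) : ℝ) - (wa + q : ℕ)) + (((wb + vp wb + q : ℕ) : ℝ) -
        (wa + vp wa + q : ℕ)) ≤ 2 * X := by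
      have j1 : ((wb + vp wb : ℕ) : ℝ) ≤ (wa + vp wa + X : ℕ) := by exact_mod_cast i1
      have j2 : ((vp wa : ℕ) : ℝ) ≤ (vp wb : ℕ) := by exact_mod_cast i2
      push_cast at j1 j2 ⊢
      linarith
    have e2 := mul_le_mul_of_nonneg_right e1 hu0.le
    push_cast at e2 k1 ⊢
    linarith
  · -- the points of the path
    obtain ⟨m, rfl⟩ : ∃ m, n = m + 1 := ⟨n - 1, by omega⟩
    have hmh : (m + 1) * h = m * h + h := by ring
    have hw1 : ∀ i ≤ m, wa + (i * h + o) ≤ wb := by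
      intro i hi
      have := Nat.mul_le_mul_right h hi
      omega
    have hstep : ∀ i < m, wa + ((i + 1) * h + o) = wa + (i * h + o) + h := by
      intro i _
      ring
    -- the first piece
    have hoa := hw1 0 (by omega)
    rw [zero_mul, zero_add] at hoa
    have i1 := inc wa (wa + o) le_rfl (by omega) (by omega) hoa
    have i2 := mono wa (wa + o) le_rfl (by omega) hoa
    have l1 := lv (wa + o) wb (by omega) hoa le_rfl
    have k1 := vdf_lip (σ := σ) (a := a) (s := s) (t := t) (N := N) (r := wa + q)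
      (U := wa + vp wa + q) (r' := wa + (0 * h + o) + q)
      (U' := wa + (0 * h + o) + vp (wa + (0 * h + o)) + q) hp hB (by omega)
      (by rw [zero_mul, zero_add]; omega) (by omega) (by rw [zero_mul, zero_add]; omega) hb Θ
    -- the path
    have k2 := vdf_seq (σ := σ) (a := a) (s := s) (t := t) (N := N) (X := X) hp hB hb Θ
      (fun i => wa + (i * h + o) + q)
      (fun i => wa + (i * h + o) + vp (wa + (i * h + o)) + q) m
      (fun i hi => by have := hstep i hi; show _ ≤ _; rw [this]; omega)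
      (fun i hi => by
        have e := hstep i hi
        have := mono (wa + (i * h + o)) (wa + ((i + 1) * h + o)) (by omega) (by omega)
          (hw1 (i + 1) (by omega))
        show _ ≤ _
        omega)
      (fun i hi => by
        have e := hw1 (i + 1) (by omega)
        show _ ≤ _
        omega)
      (fun i hi => by
        have e := hw1 (i + 1) (by omega)
        have := lv (wa + ((i + 1) * h + o)) wb (by omega) e le_rfl
        show _ ≤ _
        omega)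
      (fun i hi => by
        have e := hstep i hi
        have e1 := inc (wa + (i * h + o)) (wa + ((i + 1) * h + o)) (by omega) (by omega)
          (by omega) (hw1 (i + 1) (by omega))
        have := mono (wa + (i * h + o)) (wa + ((i + 1) * h + o)) (by omega) (by omega)
          (hw1 (i + 1) (by omega))
        show _ ≤ _
        omega)
      (fun i hi => by
        have e := hstep i hi
        have e1 := inc (wa + (i * h + o)) (wa + ((i + 1) * h + o)) (by omega) (by omega)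
          (by omega) (hw1 (i + 1) (by omega))
        show _ ≤ _
        omega)
    -- the last piece
    have hl := hw1 m le_rfl
    obtain ⟨w₂, hw2⟩ : ∃ w₂, w₂ = min (wa + (m * h + o) + h) wb := ⟨_, rfl⟩
    have g1 : wa + (m * h + o) ≤ w₂ := by omega
    have g2 : w₂ ≤ wb := by omega
    have g3 : w₂ ≤ wa + (m * h + o) + h := by omega
    have g4 : wb ≤ w₂ + h := by omega
    have j1 := inc (wa + (m * h + o)) w₂ (by omega) g1 g3 g2
    have j2 := inc w₂ wb (by omega) g2 g4 le_rfl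
    have j3 := mono (wa + (m * h + o)) wb (by omega) hl le_rfl
    have k3 := vdf_lip (σ := σ) (a := a) (s := s) (t := t) (N := N)
      (r := wa + (m * h + o) + q)
      (U := wa + (m * h + o) + vp (wa + (m * h + o)) + q) (r' := wb + q)
      (U' := wb + vp wb + q) hp hB (by omega) (by omega) (by omega) (by omega) hb Θ
    -- the sum
    have k5 : ∑ i ∈ Finset.range m, dfc F p σ X (wa + (i * h + o) + q)
        (wa + (i * h + o) + vp (wa + (i * h + o)) + q) N a s t Θ ≤ S / h := by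
      refine le_trans ?_ hsum'
      exact Finset.sum_le_sum_of_subset_of_nonneg
        (Finset.range_subset_range.2 (by omega)) fun i _ _ => dfc_nonneg hp _ _ _ _ _
    -- the rows
    have e1 : (((wa + (0 * h + o) + q : ℕ) : ℝ) - (wa + q : ℕ)) +
        (((wa + (0 * h + o) + vp (wa + (0 * h + o)) + q : ℕ) : ℝ) -
          (wa + vp wa + q : ℕ)) ≤ 2 * X := by
      have c1 : ((wa + o + vp (wa + o) : ℕ) : ℝ) ≤ (wa + vp wa + X : ℕ) := by exact_mod_cast i1
      have c2 : ((vp wa : ℕ) : ℝ) ≤ (vp (wa + o) : ℕ) := by exact_mod_cast i2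
      rw [zero_mul, zero_add]
      push_cast at c1 c2 ⊢
      linarith
    have e2 : (((wb + q : ℕ) : ℝ) - (wa + (m * h + o) + q : ℕ)) +
        (((wb + vp wb + q : ℕ) : ℝ) -
          (wa + (m * h + o) + vp (wa + (m * h + o)) + q : ℕ)) ≤ 4 * X := by
      have c1 : ((w₂ + vp w₂ : ℕ) : ℝ) ≤ (wa + (m * h + o) + vp (wa + (m * h + o)) + X : ℕ) := by
        exact_mod_cast j1
      have c2 : ((wb + vp wb : ℕ) : ℝ) ≤ (w₂ + vp w₂ + X : ℕ) := by exact_mod_cast j2
      have c3 : ((vp (wa + (m * h + o)) : ℕ) : ℝ) ≤ (vp wb : ℕ) := by exact_mod_cast j3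
      push_cast at c1 c2 c3 ⊢
      linarith
    have e3 := mul_le_mul_of_nonneg_right e1 hu0.le
    have e4 := mul_le_mul_of_nonneg_right e2 hu0.le
    push_cast at e3 e4 k1 k2 k3 ⊢
    linarith

/-- A variable of the condition may be dropped, at the cost of its entropy. -/
theorem vdf_drop (hp : IsLaw p) {r U N : ℕ} (κ : F.Ω → τ') (Θ : F.Ω → τ) :
    F.vdf p σ r U N a s t (fun ω => (κ ω, Θ ω)) ≤ F.vdf p σ r U N a s t Θ + CH p κ Θ := by
  have h0 := hp.nonneg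
  unfold Fam.vdf
  have k1 := CH_le_add h0 (F.X N) κ (fun ω => (F.sbx σ r U N a s t ω, Θ ω))
  have k2 : CH p κ (fun ω => (F.sbx σ r U N a s t ω, Θ ω)) ≤ CH p κ Θ :=
    CH_mono_cond h0 fun _ _ _ _ e => (Prod.ext_iff.mp e).2
  have k3 := CH_swap h0 (F.X N) κ (F.sbx σ r U N a s t) Θ
  linarith

/-- Frames which differ in the direction only. -/
theorem fnr_dir {D x y u v : ℝ} {r lam N : ℕ} (hD : 0 ≤ D) (h : |y - x| ≤ D / 2 ^ lam) :
    Fnr r (r + lam) N D x u v y u v := by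
  refine ⟨?_, ?_, ?_⟩
  · refine h.trans (le_of_eq ?_)
    rw [pow_add]
    field_simp
  · rw [sub_self, abs_zero]
    positivity
  · rw [sub_self, sub_self, zero_mul, add_zero, abs_zero]
    positivity

/-- Change of the direction, in a condition which determines both directions. -/
theorem vdf_dir (hp : IsLaw p) {B D : ℝ} (hB : 1 ≤ B) (hD : 1 ≤ D) {a' : F.Ω → ℝ}
    {w v q N : ℕ} (hN : w + v + q ≤ N)
    (hb : ∀ ω, 0 < p ω → |a' ω| ≤ B ∧ |s ω| ≤ B ∧ |t ω| ≤ B)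
    (hn : ∀ ω, 0 < p ω → |a ω - a' ω| ≤ D / 2 ^ v) (Θ : F.Ω → τ) (hf : Fd p Θ a s t)
    (hf' : Fd p Θ a' s t) :
    F.vdf p σ (w + q) (w + v + q) N a s t Θ ≤ F.vdf p σ (w + q) (w + v + q) N a' s t Θ +
      (K1 B + (3 : ℕ) * Real.log (6 * D + 3)) := by
  have e1 : w + v + q = w + q + v := by ring
  exact vdf_chg (σ := σ) (a := a) (s := s) (t := t) (a' := a') (s' := s) (t' := t)
    hp hB hD (by omega) (by omega) hb (fun ω hω => by
      rw [e1]
      exact fnr_dir (by linarith) (hn ω hω)) Θ hf hf'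

/-- **The chain of rectangles**, for one velocity scale; the directions `al i` are finer and
finer. -/
theorem chain_al (hp : IsLaw p) {B D : ℝ} (hB : 1 ≤ B) (hD : 1 ≤ D) {al : ℕ → F.Ω → ℝ}
    (hb : ∀ i ω, 0 < p ω → |al i ω| ≤ B ∧ |s ω| ≤ B ∧ |t ω| ≤ B) {h X q N : ℕ} {vp : ℕ → ℕ}
    (hh : 1 ≤ h) (W : ℕ → ℕ) (S : ℕ → ℝ) (Θ : F.Ω → τ) (hf : Det p Θ (fun ω => (s ω, t ω))) :
    ∀ n : ℕ, (∀ i < n, W i ≤ W (i + 1)) →
    (∀ w w', W 0 ≤ w → w ≤ w' → w' ≤ W n → vp w ≤ vp w') →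
    (∀ w w', W 0 ≤ w → w ≤ w' → w' ≤ w + h → w' ≤ W n → w' + vp w' ≤ w + vp w + X) →
    (W n + vp (W n) + q ≤ N) → (∀ i < n, Det p (al (i + 1)) (al i)) →
    (∀ i < n, ∀ ω, 0 < p ω → |al i ω - al (i + 1) ω| ≤ D / 2 ^ vp (W (i + 1))) →
    (∀ i < n, ∑ w ∈ Finset.range ((W (i + 1) - W i) / h * h),
      dfc F p σ X (W i + w + q) (W i + w + vp (W i + w) + q) N (al i) s t
        (fun ω => (al i ω, Θ ω)) ≤ S i) →
    F.vdf p σ (W 0 + q) (W 0 + vp (W 0) + q) N (al 0) s t (fun ω => (al 0 ω, Θ ω)) ≤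
      F.vdf p σ (W n + q) (W n + vp (W n) + q) N (al n) s t (fun ω => (al n ω, Θ ω)) +
        ((∑ i ∈ Finset.range n, S i) / h + n * (6 * X * Real.log 2) +
          ((W n - W 0 : ℝ) / h + 2 * n) * K1 B +
          n * (K1 B + (3 : ℕ) * Real.log (6 * D + 3))) := by
  intro n
  induction n with
  | zero =>
    intro _ _ _ _ _ _ _
    simp
  | succ n ih =>
    intro h1 h2 h3 h4 h5 h6 h7
    have hK := K1_nonneg hB
    have hhr : (0 : ℝ) < h := by exact_mod_cast hh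
    have hWn : W n ≤ W (n + 1) := h1 n (by omega)
    have hW0 : W 0 ≤ W n := by
      have : ∀ k ≤ n, W 0 ≤ W k := by
        intro k
        induction k with
        | zero => intro _; exact le_rfl
        | succ k ihk => intro hk; exact (ihk (by omega)).trans (h1 k (by omega))
      exact this n le_rfl
    have k1 := ih (fun i hi => h1 i (by omega))
      (fun w w' g1 g2 g3 => h2 w w' g1 g2 (g3.trans hWn))
      (fun w w' g1 g2 g3 g4 => h3 w w' g1 g2 g3 (g4.trans hWn))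
      (by have := h2 (W n) (W (n + 1)) hW0 hWn le_rfl; omega)
      (fun i hi => h5 i (by omega)) (fun i hi => h6 i (by omega)) (fun i hi => h7 i (by omega))
    have k2 := piece_al (σ := σ) (a := al n) (s := s) (t := t) (S := S n) (X := X) (q := q)
      (N := N) (vp := vp) hp hB (hb n) hh hWn
      (fun w w' g1 g2 g3 => h2 w w' (hW0.trans g1) g2 g3)
      (fun w w' g1 g2 g3 g4 => h3 w w' (hW0.trans g1) g2 g3 g4) h4 (fun ω => (al n ω, Θ ω))
      (h7 n (by omega))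
    have hdet := h5 n (by omega)
    have k3 := vdf_cond (σ := σ) (a := al n) (s := s) (t := t) (r := W (n + 1) + q)
      (U := W (n + 1) + vp (W (n + 1)) + q) (N := N) hp (fun ω => (al n ω, Θ ω))
      (fun ω => (al (n + 1) ω, Θ ω)) (fun ω ω' x y e => Prod.ext
        (hdet ω ω' x y (Prod.ext_iff.mp e).1) (Prod.ext_iff.mp e).2)
    have f1 : Fd p (fun ω => (al (n + 1) ω, Θ ω)) (al n) s t := fun ω ω' x y e =>
      Prod.ext (hdet ω ω' x y (Prod.ext_iff.mp e).1) (hf ω ω' x y (Prod.ext_iff.mp e).2)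
    have f2 : Fd p (fun ω => (al (n + 1) ω, Θ ω)) (al (n + 1)) s t := fun ω ω' x y e =>
      Prod.ext (Prod.ext_iff.mp e).1 (hf ω ω' x y (Prod.ext_iff.mp e).2)
    have k4 := vdf_dir (σ := σ) (a := al n) (s := s) (t := t) (a' := al (n + 1)) (N := N)
      hp hB hD h4 (hb (n + 1)) (h6 n (by omega)) (fun ω => (al (n + 1) ω, Θ ω)) f1 f2
    have e1 : (((W (n + 1) - W n) / h : ℕ) : ℝ) ≤ ((W (n + 1) : ℝ) - W n) / h := by
      have g1 := Nat.cast_div_le (α := ℝ) (m := W (n + 1) - W n) (n := h)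
      rw [Nat.cast_sub hWn] at g1
      exact g1
    have e2 : ((W (n + 1) : ℝ) - W 0) / h = ((W (n + 1) : ℝ) - W n) / h +
        ((W n : ℝ) - W 0) / h := by ring
    have e3 := mul_le_mul_of_nonneg_right e1 hK
    rw [Finset.sum_range_succ, add_div, e2]
    push_cast at k2 k4 ⊢
    linarith

/-- **One rectangle.** The directions `a₁`, `a₂` of the windows `W 0`, `W n`, the directions `al i`
of the exact point, the normal `(s, t)` is passive. -/
theorem rect_lab (hp : IsLaw p) {B D E S : ℝ} (hB : 1 ≤ B) (hD : 1 ≤ D)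
    {a₁ a₂ : F.Ω → ℝ} {al : ℕ → F.Ω → ℝ} {h X qa ql N n : ℕ} {vp : ℕ → ℕ} {W : ℕ → ℕ}
    (hb : ∀ i ω, 0 < p ω → |al i ω| ≤ B ∧ |s ω| ≤ B ∧ |t ω| ≤ B)
    (hb2 : ∀ ω, 0 < p ω → |a₂ ω| ≤ B)
    (hh : 1 ≤ h) (hql : 1 ≤ ql) (hW : ∀ i < n, W i ≤ W (i + 1))
    (mono : ∀ w w', W 0 ≤ w → w ≤ w' → w' ≤ W n → vp w ≤ vp w')
    (inc : ∀ w w', W 0 ≤ w → w ≤ w' → w' ≤ w + h → w' ≤ W n → w' + vp w' ≤ w + vp w + X)
    (hN : W n + vp (W n) + (qa + ql) ≤ N)
    (nd : ∀ i < n, Det p (al (i + 1)) (al i))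
    (nn : ∀ i < n, ∀ ω, 0 < p ω → |al i ω - al (i + 1) ω| ≤ D / 2 ^ vp (W (i + 1)))
    (n1 : ∀ ω, 0 < p ω → |a₁ ω - al 0 ω| ≤ D / 2 ^ vp (W 0))
    (n2 : ∀ ω, 0 < p ω → |al n ω - a₂ ω| ≤ D / 2 ^ vp (W n))
    (Θ : F.Ω → τ) (Θ' : F.Ω → τ') (hΘ : Det p Θ' Θ) (f1 : Fd p Θ a₁ s t) (f2 : Fd p Θ' a₂ s t)
    (hE : CH p (al n) Θ' ≤ E)
    (hS : ∑ q ∈ Finset.range ql, ∑ i ∈ Finset.range n,
      ∑ w ∈ Finset.range ((W (i + 1) - W i) / h * h),
        dfc F p σ X (W i + w + (qa + q)) (W i + w + vp (W i + w) + (qa + q)) N (al i) s t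
          (fun ω => (al i ω, Θ ω)) ≤ S) :
    F.vdf p σ (W 0 + qa) (W 0 + vp (W 0) + qa) N a₁ s t Θ ≤
      F.vdf p σ (W n + qa) (W n + vp (W n) + qa) N a₂ s t Θ' +
        (S / (h * ql) + (2 * ql + 6 * n * X) * Real.log 2 +
          ((W n - W 0 : ℝ) / h + 2 * n + 1) * K1 B +
          (n + 2) * (K1 B + (3 : ℕ) * Real.log (6 * D + 3)) + E) := by
  have hu0 : 0 < Real.log 2 := Real.log_pos (by norm_num)
  have hK := K1_nonneg hB
  have hq0 : (0 : ℝ) ≤ ql := Nat.cast_nonneg ql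
  obtain ⟨q, hq, hsum⟩ := exists_q _ hql hS
  have hqr : (q : ℝ) ≤ ql := by exact_mod_cast hq.le
  have hW0 : ∀ k ≤ n, W 0 ≤ W k := by
    intro k
    induction k with
    | zero => intro _; exact le_rfl
    | succ k ihk => intro hk; exact (ihk (by omega)).trans (hW k (by omega))
  have i0 := mono (W 0) (W n) le_rfl (hW0 n le_rfl) le_rfl
  have i1 := hW0 n le_rfl
  have f3 : Fd p (fun ω => (al 0 ω, Θ ω)) a₁ s t := fun ω ω' x y e =>
    f1 ω ω' x y (Prod.ext_iff.mp e).2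
  have f4 : Fd p (fun ω => (al 0 ω, Θ ω)) (al 0) s t := fun ω ω' x y e => by
    have e1 := Prod.ext_iff.mp e
    have e2 := f1.eq x y e1.2
    exact Prod.ext e1.1 (Prod.ext e2.2.1 e2.2.2)
  have f5 : Fd p (fun ω => (al n ω, Θ' ω)) a₂ s t := fun ω ω' x y e =>
    f2 ω ω' x y (Prod.ext_iff.mp e).2
  have f6 : Fd p (fun ω => (al n ω, Θ' ω)) (al n) s t := fun ω ω' x y e => by
    have e1 := Prod.ext_iff.mp e
    have e2 := f2.eq x y e1.2
    exact Prod.ext e1.1 (Prod.ext e2.2.1 e2.2.2)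
  have k1 := vdf_cond (σ := σ) (a := a₁) (s := s) (t := t) (r := W 0 + qa)
    (U := W 0 + vp (W 0) + qa) (N := N) hp Θ (fun ω => (al 0 ω, Θ ω))
    (fun _ _ _ _ e => (Prod.ext_iff.mp e).2)
  have k2 := vdf_dir (σ := σ) (a := a₁) (s := s) (t := t) (a' := al 0) (w := W 0)
    (v := vp (W 0)) (q := qa) (N := N) hp hB hD (by omega) (hb 0) n1
    (fun ω => (al 0 ω, Θ ω)) f3 f4
  -- from `qa` to `qa + q`
  have k3 := vdf_lip (σ := σ) (a := al 0) (s := s) (t := t) (N := N) (r := W 0 + qa)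
    (U := W 0 + vp (W 0) + qa) (r' := W 0 + (qa + q)) (U' := W 0 + vp (W 0) + (qa + q)) hp hB
    (by omega) (by omega) (by omega) (by omega) (hb 0) (fun ω => (al 0 ω, Θ ω))
  have k4 := chain_al (σ := σ) (s := s) (t := t) (al := al) (h := h) (X := X) (q := qa + q)
    (N := N) (vp := vp) hp hB hD hb hh W
    (fun i => ∑ w ∈ Finset.range ((W (i + 1) - W i) / h * h),
        dfc F p σ X (W i + w + (qa + q)) (W i + w + vp (W i + w) + (qa + q)) N (al i) s t
          (fun ω => (al i ω, Θ ω))) Θ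
    (fun ω ω' x y e => (Prod.ext_iff.mp (f1 ω ω' x y e)).2) n hW mono inc (by omega) nd nn
    (fun i _ => le_rfl)
  have k5 := vdf_mono (σ := σ) (a := al n) (s := s) (t := t) (N := N) hp
    (show W n + qa ≤ W n + (qa + q) by omega)
    (show W n + vp (W n) + qa ≤ W n + vp (W n) + (qa + q) by omega) (fun ω => (al n ω, Θ ω))
  have k6 := vdf_cond (σ := σ) (a := al n) (s := s) (t := t) (r := W n + qa)
    (U := W n + vp (W n) + qa) (N := N) hp (fun ω => (al n ω, Θ ω)) (fun ω => (al n ω, Θ' ω))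
    (fun ω ω' x y e => Prod.ext (Prod.ext_iff.mp e).1 (hΘ ω ω' x y (Prod.ext_iff.mp e).2))
  have k7 := vdf_dir (σ := σ) (a := al n) (s := s) (t := t) (a' := a₂) (w := W n)
    (v := vp (W n)) (q := qa) (N := N) hp hB hD (by omega)
    (fun ω hω => ⟨hb2 ω hω, (hb 0 ω hω).2.1, (hb 0 ω hω).2.2⟩) n2
    (fun ω => (al n ω, Θ' ω)) f6 f5
  have k8 := vdf_drop (σ := σ) (a := a₂) (s := s) (t := t) (r := W n + qa)
    (U := W n + vp (W n) + qa) (N := N) hp (al n) Θ'
  have e1 : (((W 0 + (qa + q) : ℕ) : ℝ) - (W 0 + qa : ℕ)) +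
      (((W 0 + vp (W 0) + (qa + q) : ℕ) : ℝ) - (W 0 + vp (W 0) + qa : ℕ)) ≤ 2 * ql := by
    push_cast
    linarith
  have e2 := mul_le_mul_of_nonneg_right e1 hu0.le
  have hhr : (0 : ℝ) < h := by exact_mod_cast hh
  have e3 : (∑ i ∈ Finset.range n, ∑ w ∈ Finset.range ((W (i + 1) - W i) / h * h),
        dfc F p σ X (W i + w + (qa + q)) (W i + w + vp (W i + w) + (qa + q)) N (al i) s t
          (fun ω => (al i ω, Θ ω))) / h ≤ S / (h * ql) := by
    have : S / (h * ql) = S / ql / h := by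
      rw [mul_comm, ← div_div]
    rw [this]
    exact div_le_div_of_nonneg_right hsum hhr.le
  beta_reduce at k4
  have t1 : F.vdf p σ (W 0 + qa) (W 0 + vp (W 0) + qa) N a₁ s t Θ ≤
      F.vdf p σ (W 0 + (qa + q)) (W 0 + vp (W 0) + (qa + q)) N (al 0) s t (fun ω => (al 0 ω, Θ ω)) +
        (K1 B + (3 : ℕ) * Real.log (6 * D + 3)) + 2 * ql * Real.log 2 + K1 B := by
    linarith
  have t2 : F.vdf p σ (W n + (qa + q)) (W n + vp (W n) + (qa + q)) N (al n) s t (fun ω => (al n ω, Θ ω)) ≤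
      F.vdf p σ (W n + qa) (W n + vp (W n) + qa) N a₂ s t Θ' +
      (K1 B + (3 : ℕ) * Real.log (6 * D + 3)) + E := by
    linarith
  obtain ⟨c, hc⟩ : ∃ c, c = K1 B + (3 : ℕ) * Real.log (6 * D + 3) := ⟨_, rfl⟩
  obtain ⟨G, hG⟩ : ∃ G, G = (∑ i ∈ Finset.range n, ∑ w ∈ Finset.range ((W (i + 1) - W i) / h * h),
        dfc F p σ X (W i + w + (qa + q)) (W i + w + vp (W i + w) + (qa + q)) N (al i) s t
          (fun ω => (al i ω, Θ ω))) / h := ⟨_, rfl⟩
  obtain ⟨H, hH⟩ : ∃ H : ℝ, H = ((W n : ℝ) - W 0) / h := ⟨_, rfl⟩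
  rw [← hc] at t1 t2 k4 ⊢
  rw [← hG] at e3 k4
  rw [← hH] at k4 ⊢
  have e5 : (2 * (ql : ℝ) + 6 * n * X) * Real.log 2 = 2 * ql * Real.log 2 +
    n * (6 * X * Real.log 2) := by ring
  rw [e5]
  have e6 : (H + 2 * n + 1) * K1 B = (H + 2 * n) * K1 B + K1 B := by ring
  have e7 : ((n : ℝ) + 2) * c = n * c + 2 * c := by ring
  rw [e6, e7]
  linarith

end Pool.S6D
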