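import Pool.Agent.H24.S6D.LxS
import Pool.Agent.H10.S6U.Uz1

/-!
# LEMMA X, one family: the geometry of the labels
-/

set_option autoImplicit false

namespace Pool.S6V

open Finset Real
open Pool.Agent.H49.Ent Pool.Agent.H32.Dense Pool.STK Pool.KA Pool.KSAT Pool.K2S Pool.PB Pool.KS6
  Pool.S6C Pool.S6U Pool.KA.Vd

namespace LxP

/-! ### Floors -/

theorem fl_diff {k : ℕ} {x y c : ℝ} (h : |x - y| ≤ c / 2 ^ k) :
    |((⌊(2 : ℝ) ^ k * x⌋ - ⌊(2 : ℝ) ^ k * y⌋ : ℤ) : ℝ)| ≤ c + 1 := by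
  have pk : (0 : ℝ) < 2 ^ k := by positivity
  rw [le_div_iff₀ pk] at h
  have h0 : |2 ^ k * x - 2 ^ k * y| ≤ c := by
    rw [← mul_sub, abs_mul, abs_of_pos pk, mul_comm]
    exact h
  have h1 := Int.floor_le ((2 : ℝ) ^ k * x)
  have h2 := Int.lt_floor_add_one ((2 : ℝ) ^ k * x)
  have h3 := Int.floor_le ((2 : ℝ) ^ k * y)
  have h4 := Int.lt_floor_add_one ((2 : ℝ) ^ k * y)
  rw [abs_le] at h0 ⊢
  push_cast
  constructor <;> linarith [h0.1, h0.2]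

theorem inv_le {x y : ℕ} (h : x ≤ y) {c : ℝ} (hc : 0 ≤ c) : c / (2 : ℝ) ^ y ≤ c / 2 ^ x :=
  div_le_div_of_nonneg_left hc (by positivity) (pow_le_pow_right₀ (by norm_num) h)

theorem inv_mul (x y : ℕ) (c e : ℝ) : c / (2 : ℝ) ^ x * (e / 2 ^ y) = c * e / 2 ^ (x + y) := by
  rw [pow_add]
  field_simp

/-! ### Linear coordinates -/

theorem fu_lin (i0 iu : Fin 3) (e δ : ℝ) (x y : Fin 3 → ℝ) :
    fu i0 iu e (fun i => x i + δ * y i) = fu i0 iu e x + δ * fu i0 iu e y := by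
  unfold fu
  ring

theorem fn_lin (i0 iu iN : Fin 3) (c s δ : ℝ) (x y : Fin 3 → ℝ) :
    fn i0 iu iN c s (fun i => x i + δ * y i) = fn i0 iu iN c s x + δ * fn i0 iu iN c s y := by
  unfold fn
  ring

theorem fu_chg (i0 iu : Fin 3) (e e' : ℝ) (x y : Fin 3 → ℝ) :
    fu i0 iu e' x - fu i0 iu e' y = (fu i0 iu e x - fu i0 iu e y) + (e - e') * (x i0 - y i0) := by
  unfold fu
  ring

section fam

variable {J : ℕ} {F : Fam 3 J}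

/-! ### Times -/

theorem t_near {w w' wy : ℕ} (hxy : w' ≤ wy) (hJ : wy ≤ J) (hw : w ≤ w') {ω ν : F.Ω}
    (h : F.T1 w' ω = F.T1 w' ν) : |F.t ω - (F.T1 wy ν : ℝ) / 2 ^ wy| ≤ 1 / 2 ^ w := by
  have hw'J : w' ≤ J := hxy.trans hJ
  obtain ⟨K, rfl⟩ := Nat.exists_eq_add_of_le hxy
  have a1 := T1_real F hw'J ω
  have a3 := T1_div F hJ ν
  have a4 : (F.T1 w' ν : ℝ) * 2 ^ K ≤ F.T1 (w' + K) ν := by
    rw [a3]
    exact_mod_cast Nat.div_mul_le_self _ _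
  have a5 : (F.T1 (w' + K) ν : ℝ) < ((F.T1 w' ν : ℝ) + 1) * 2 ^ K := by
    rw [a3]
    have := Nat.lt_div_mul_add (a := F.T1 (w' + K) ν) (b := 2 ^ K) (by positivity)
    have h2 : F.T1 (w' + K) ν < (F.T1 (w' + K) ν / 2 ^ K + 1) * 2 ^ K := by
      rw [add_mul, one_mul]
      exact this
    exact_mod_cast h2
  rw [← h] at a4 a5
  have p1 : (0 : ℝ) < 2 ^ w' := by positivity
  have p2 : (0 : ℝ) < 2 ^ K := by positivity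
  have b1 : (F.T1 w' ω : ℝ) / 2 ^ w' ≤ F.t ω := by
    rw [div_le_iff₀ p1]
    linarith [a1.1]
  have b2 : F.t ω < ((F.T1 w' ω : ℝ) + 1) / 2 ^ w' := by
    rw [lt_div_iff₀ p1]
    linarith [a1.2]
  have b3 : (F.T1 w' ω : ℝ) / 2 ^ w' ≤ (F.T1 (w' + K) ν : ℝ) / 2 ^ (w' + K) := by
    rw [pow_add, div_le_div_iff₀ p1 (by positivity)]
    nlinarith
  have b4 : (F.T1 (w' + K) ν : ℝ) / 2 ^ (w' + K) < ((F.T1 w' ω : ℝ) + 1) / 2 ^ w' := by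
    rw [pow_add, div_lt_div_iff₀ (by positivity) p1]
    nlinarith
  have b5 : ((F.T1 w' ω : ℝ) + 1) / 2 ^ w' = (F.T1 w' ω : ℝ) / 2 ^ w' + 1 / 2 ^ w' := by ring
  have b6 : (1 : ℝ) / 2 ^ w' ≤ 1 / 2 ^ w := inv_le hw zero_le_one
  rw [abs_le]
  constructor <;> linarith

/-- The position of a line at another time of the window. -/
theorem x_move {wy : ℕ} {ω ν : F.Ω} (h : F.l ω = F.l ν) :
    F.x ω = fun i => F.x1 wy ν i + (F.t ω - (F.T1 wy ν : ℝ) / 2 ^ wy) * F.d ν i := by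
  have h1 : F.u ω = F.u ν ∧ F.d ω = F.d ν := Prod.ext_iff.mp h
  funext i
  unfold Fam.x Fam.x1
  rw [h1.1, h1.2]
  ring

/-! ### Two samples with the same label -/

section lab

variable {ς : Fin 3 → Fin 3} {wx wy q E U' P : ℕ} {Λ : Type} {κ : F.Ω → Λ} {pl : Λ → Pln}
  {a : F.Ω → ℝ} {ν ν' : F.Ω}

/-- The difference of two samples with the same label. -/
structure Nrl (F : Fam 3 J) (ς : Fin 3 → Fin 3) (wx wy q E U' P : ℕ) (e c s : ℝ)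
    (ν ν' : F.Ω) : Prop where
  x0 : |F.x1 wy ν (ς 0) - F.x1 wy ν' (ς 0)| ≤ 1 / 2 ^ (q + wy)
  d0 : |F.d ν (ς 0) - F.d ν' (ς 0)| ≤ 1 / 2 ^ q
  x1 : |fu (ς 0) (ς 1) e (F.x1 wy ν) - fu (ς 0) (ς 1) e (F.x1 wy ν')| ≤ 1 / 2 ^ U'
  d1 : |fu (ς 0) (ς 1) e (F.d ν) - fu (ς 0) (ς 1) e (F.d ν')| ≤ 1 / 2 ^ (E + q)
  x2 : |fn (ς 0) (ς 1) (ς 2) c s (F.x1 wy ν) - fn (ς 0) (ς 1) (ς 2) c s (F.x1 wy ν')| ≤
    1 / 2 ^ P
  d2 : |fn (ς 0) (ς 1) (ς 2) c s (F.d ν) - fn (ς 0) (ς 1) (ς 2) c s (F.d ν')| ≤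
    1 / 2 ^ (P - wx)

theorem lxl_ext (h : lxl F ς wx wy q E U' P κ pl a ν = lxl F ς wx wy q E U' P κ pl a ν') :
    F.T ν = F.T ν' ∧ F.Z ν = F.Z ν' ∧ κ ν = κ ν' ∧ a ν = a ν' ∧
      Nrl F ς wx wy q E U' P (a ν) (pl (κ ν)).c (pl (κ ν)).s ν ν' := by
  have h1 := Prod.ext_iff.mp h
  have h2 := Prod.ext_iff.mp h1.2
  have h3 := Prod.ext_iff.mp h2.1
  have h4 := Prod.ext_iff.mp h2.2
  have h5 := Prod.ext_iff.mp h4.1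
  have h6 := Prod.ext_iff.mp h5.1
  have h7 := Prod.ext_iff.mp h5.2
  have h8 := Prod.ext_iff.mp h7.1
  have h9 := Prod.ext_iff.mp h7.2
  have eT : F.T ν = F.T ν' := h1.1
  have eZ : F.Z ν = F.Z ν' := h4.2
  have ek : κ ν = κ ν' := h6.1
  have ea : a ν = a ν' := h6.2
  refine ⟨eT, eZ, ek, ea, ⟨?_, ?_, ?_, ?_, ?_, ?_⟩⟩
  · exact Box.near_of_floor h3.1
  · exact Box.near_of_floor h3.2
  · refine Box.near_of_floor (?_ : ⌊(2 : ℝ) ^ U' * fu (ς 0) (ς 1) (a ν) (F.x1 wy ν)⌋ =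
      ⌊(2 : ℝ) ^ U' * fu (ς 0) (ς 1) (a ν) (F.x1 wy ν')⌋)
    have e := h8.1
    change _ = ⌊(2 : ℝ) ^ U' * fu (ς 0) (ς 1) (a ν') (F.x1 wy ν')⌋ at e
    rw [← ea] at e
    exact e
  · refine Box.near_of_floor (?_ : ⌊(2 : ℝ) ^ (E + q) * fu (ς 0) (ς 1) (a ν) (F.d ν)⌋ =
      ⌊(2 : ℝ) ^ (E + q) * fu (ς 0) (ς 1) (a ν) (F.d ν')⌋)
    have e := h9.1
    change _ = ⌊(2 : ℝ) ^ (E + q) * fu (ς 0) (ς 1) (a ν') (F.d ν')⌋ at e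
    rw [← ea] at e
    exact e
  · refine Box.near_of_floor (?_ :
      ⌊(2 : ℝ) ^ P * fn (ς 0) (ς 1) (ς 2) (pl (κ ν)).c (pl (κ ν)).s (F.x1 wy ν)⌋ =
      ⌊(2 : ℝ) ^ P * fn (ς 0) (ς 1) (ς 2) (pl (κ ν)).c (pl (κ ν)).s (F.x1 wy ν')⌋)
    have e := h8.2
    change _ = ⌊(2 : ℝ) ^ P * fn (ς 0) (ς 1) (ς 2) (pl (κ ν')).c (pl (κ ν')).s (F.x1 wy ν')⌋ at e
    rw [← ek] at e
    exact e
  · refine Box.near_of_floor (?_ :
      ⌊(2 : ℝ) ^ (P - wx) * fn (ς 0) (ς 1) (ς 2) (pl (κ ν)).c (pl (κ ν)).s (F.d ν)⌋ =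
      ⌊(2 : ℝ) ^ (P - wx) * fn (ς 0) (ς 1) (ς 2) (pl (κ ν)).c (pl (κ ν)).s (F.d ν')⌋)
    have e := h9.2
    change _ = ⌊(2 : ℝ) ^ (P - wx) *
      fn (ς 0) (ς 1) (ς 2) (pl (κ ν')).c (pl (κ ν')).s (F.d ν')⌋ at e
    rw [← ek] at e
    exact e

/-- **Motion.** The two samples at another time, which differs by at most `2 ^ (- w)` from the
beginning of the window, `wx ≤ w ≤ wy`. -/
theorem Nrl.mv {e c s : ℝ} (h : Nrl F ς wx wy q E (wx + q + E) P e c s ν ν') {w : ℕ}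
    (h1 : wx ≤ w) (h2 : w ≤ wy) (hP : wx ≤ P) {δ : ℝ} (hδ : |δ| ≤ 1 / 2 ^ w) {y y' : Fin 3 → ℝ}
    (hy : y = fun i => F.x1 wy ν i + δ * F.d ν i) (hy' : y' = fun i => F.x1 wy ν' i + δ * F.d ν' i) :
    |y (ς 0) - y' (ς 0)| ≤ 2 / 2 ^ (w + q) ∧
      |fu (ς 0) (ς 1) e y - fu (ς 0) (ς 1) e y'| ≤ 2 / 2 ^ (wx + q + E) ∧
      |fn (ς 0) (ς 1) (ς 2) c s y - fn (ς 0) (ς 1) (ς 2) c s y'| ≤ 2 / 2 ^ P := by
  have key : ∀ {A B A' B' r v : ℝ}, |A - A'| ≤ r → |B - B'| ≤ v → 1 / 2 ^ w * v ≤ r →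
      0 ≤ v → |(A + δ * B) - (A' + δ * B')| ≤ 2 * r := by
    intro A B A' B' r v k1 k2 k3 k4
    have e1 : (A + δ * B) - (A' + δ * B') = (A - A') + δ * (B - B') := by ring
    rw [e1]
    refine (abs_add_le _ _).trans ?_
    rw [abs_mul]
    have : |δ| * |B - B'| ≤ 1 / 2 ^ w * v :=
      mul_le_mul hδ k2 (abs_nonneg _) (by positivity)
    linarith
  refine ⟨?_, ?_, ?_⟩
  · rw [hy, hy']
    have k1 : |F.x1 wy ν (ς 0) - F.x1 wy ν' (ς 0)| ≤ 1 / 2 ^ (w + q) :=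
      h.x0.trans (inv_le (by omega) zero_le_one)
    refine (key k1 h.d0 ?_ (by positivity)).trans (le_of_eq (by ring))
    rw [inv_mul, one_mul]
  · rw [hy, hy', fu_lin, fu_lin]
    refine (key h.x1 h.d1 ?_ (by positivity)).trans (le_of_eq (by ring))
    rw [inv_mul, one_mul]
    exact inv_le (by omega) zero_le_one
  · rw [hy, hy', fn_lin, fn_lin]
    refine (key h.x2 h.d2 ?_ (by positivity)).trans (le_of_eq (by ring))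
    rw [inv_mul, one_mul]
    exact inv_le (by omega) zero_le_one

/-- Change of the slope. -/
theorem mv_fu {e e' : ℝ} {y y' : Fin 3 → ℝ} {w N N' : ℕ} {c : ℝ} (hc : 0 ≤ c)
    (h1 : |y (ς 0) - y' (ς 0)| ≤ 2 / 2 ^ w)
    (h2 : |fu (ς 0) (ς 1) e y - fu (ς 0) (ς 1) e y'| ≤ 2 / 2 ^ N) (h3 : |e - e'| ≤ c / 2 ^ N')
    {M : ℕ} (h4 : M ≤ N' + w) (hM : M ≤ N) :
    |fu (ς 0) (ς 1) e' y - fu (ς 0) (ς 1) e' y'| ≤ (2 + 2 * c) / 2 ^ M := by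
  rw [fu_chg (ς 0) (ς 1) e e']
  refine (abs_add_le _ _).trans ?_
  rw [abs_mul]
  have k1 : |e - e'| * |y (ς 0) - y' (ς 0)| ≤ c / 2 ^ N' * (2 / 2 ^ w) :=
    mul_le_mul h3 h1 (abs_nonneg _) (by positivity)
  rw [inv_mul] at k1
  have k2 : c * 2 / (2 : ℝ) ^ (N' + w) ≤ c * 2 / 2 ^ M := inv_le (by omega) (by positivity)
  have k3 : (2 : ℝ) / 2 ^ N ≤ 2 / 2 ^ M := inv_le hM (by norm_num)
  have k4 : (2 + 2 * c) / (2 : ℝ) ^ M = 2 / 2 ^ M + c * 2 / 2 ^ M := by ring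
  rw [k4]
  linarith

end lab

end fam

end LxP

end Pool.S6V
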