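import Pool.Agent.H24.S6D.LxA
import Pool.Agent.H86.LX.Stmt

/-!
# LEMMA X, one family: the block of both plank coordinates is full
-/

set_option autoImplicit false

namespace Pool.S6V

open Finset Real
open Pool.Agent.H49.Ent Pool.Agent.H32.Dense Pool.STK Pool.KA Pool.KSAT Pool.K2S Pool.PB Pool.KS6
  Pool.S6C Pool.S6U Pool.KA.Vd

namespace LxP

section inst

variable {J : ℕ} {F : Fam 3 J} {B : F.Ω → Prop} {ς : Fin 3 → Fin 3} {w₀ wx wy q D n P : ℕ} {C : ℝ}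
  {Λ : Type} {κ : F.Ω → Λ} {pl : Λ → Pln} {al a : F.Ω → ℝ}

/-- The context at the second time. -/
noncomputable def cf (F : Fam 3 J) (ς : Fin 3 → Fin 3) (wx q D P : ℕ) (κ : F.Ω → Λ)
    (pl : Λ → Pln) (al : F.Ω → ℝ) (ω : F.Ω) :=
  (F.sbx ς (wx + q) (wx + q + D) P (ald D al) (fun ω => -(pl (κ ω)).s)
    (fun ω => -(pl (κ ω)).c) ω, (Uni.dg D al ω, (κ ω, F.W ω)))

/-- The strip at the second time. -/
noncomputable def zf (F : Fam 3 J) (ς : Fin 3 → Fin 3) (wx wy q D n : ℕ) (al : F.Ω → ℝ)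
    (ω : F.Ω) : ℤ × ℤ × ℤ :=
  (Uni.dg (D + n) al ω, (⌊(2 : ℝ) ^ (wy + q) * F.x ω (ς 0)⌋,
    ⌊(2 : ℝ) ^ (wx + q + D + n) * fu (ς 0) (ς 1) (ald (D + n) al ω) (F.x ω)⌋))

theorem ald_near (D : ℕ) (al : F.Ω → ℝ) (ω : F.Ω) : |al ω - ald D al ω| ≤ 1 / 2 ^ D := by
  rw [abs_sub_comm]
  exact dg_near D al ω

theorem on_pos {ω : F.Ω}
    (hω : 0 < Pool.Agent.H49.Ent.cond F.p B True ω) : B ω := by
  have := ((cond_pos_iff F.isLaw.nonneg B True ω).1 hω).2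
  exact of_eq_true this

/-- The cells of the position. -/
theorem co1 (s t : F.Ω → ℝ) (b : F.Ω → ℝ) (ω : F.Ω) :
    co F ς b s t 1 ω = fu (ς 0) (ς 1) (b ω) (F.x ω) := by
  unfold co fu
  exact Box.mco_tfr1 ς (b ω) (s ω) (t ω) (F.x ω)

theorem co0 (s t : F.Ω → ℝ) (b : F.Ω → ℝ) (ω : F.Ω) :
    co F ς b s t 0 ω = F.x ω (ς 0) :=
  Box.mco_tfr0 ς (b ω) (s ω) (t ω) (F.x ω)

theorem co2 (b : F.Ω → ℝ) (ω : F.Ω) :
    co F ς b (fun ω => -(pl (κ ω)).s) (fun ω => -(pl (κ ω)).c) 2 ω =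
      fn (ς 0) (ς 1) (ς 2) (pl (κ ω)).c (pl (κ ω)).s (F.x ω) := by
  unfold co fn
  rw [Box.mco_tfr2]
  ring

/-- The context is given by its cells. -/
theorem cf_ext {ω ω' : F.Ω} : cf F ς wx q D P κ pl al ω = cf F ς wx q D P κ pl al ω' ↔
    (Uni.dg D al ω = Uni.dg D al ω' ∧ κ ω = κ ω' ∧ F.T ω = F.T ω' ∧ F.Z ω = F.Z ω') ∧
      ⌊(2 : ℝ) ^ (wx + q) * F.x ω (ς 0)⌋ = ⌊(2 : ℝ) ^ (wx + q) * F.x ω' (ς 0)⌋ ∧
      ⌊(2 : ℝ) ^ (wx + q + D) * fu (ς 0) (ς 1) (ald D al ω) (F.x ω)⌋ =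
        ⌊(2 : ℝ) ^ (wx + q + D) * fu (ς 0) (ς 1) (ald D al ω') (F.x ω')⌋ ∧
      ⌊(2 : ℝ) ^ P * fn (ς 0) (ς 1) (ς 2) (pl (κ ω)).c (pl (κ ω)).s (F.x ω)⌋ =
        ⌊(2 : ℝ) ^ P * fn (ς 0) (ς 1) (ς 2) (pl (κ ω')).c (pl (κ ω')).s (F.x ω')⌋ := by
  constructor
  · intro h
    have h1 := Prod.ext_iff.mp h
    have h2 := Prod.ext_iff.mp h1.2
    have h3 := Prod.ext_iff.mp h2.2
    have h4 : F.W ω = F.W ω' := h3.2
    have h5 := Prod.ext_iff.mp h4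
    have h6 : F.sbx ς (wx + q) (wx + q + D) P (ald D al) (fun ω => -(pl (κ ω)).s)
      (fun ω => -(pl (κ ω)).c) ω = F.sbx ς (wx + q) (wx + q + D) P (ald D al)
      (fun ω => -(pl (κ ω)).s) (fun ω => -(pl (κ ω)).c) ω' := h1.1
    obtain ⟨-, c0, c1, c2⟩ := (sbx_ext).1 h6
    rw [co0, co0] at c0
    rw [co1, co1] at c1
    rw [co2, co2] at c2
    exact ⟨⟨h2.1, h3.1, h5.1, h5.2⟩, c0, c1, c2⟩
  · rintro ⟨⟨h1, h2, h3, h4⟩, c0, c1, c2⟩
    suffices h6 : F.sbx ς (wx + q) (wx + q + D) P (ald D al) (fun ω => -(pl (κ ω)).s)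
      (fun ω => -(pl (κ ω)).c) ω = F.sbx ς (wx + q) (wx + q + D) P (ald D al)
      (fun ω => -(pl (κ ω)).s) (fun ω => -(pl (κ ω)).c) ω' from
      Prod.ext h6 (Prod.ext h1 (Prod.ext h2 (Prod.ext h3 h4)))
    refine (sbx_ext).2 ⟨⟨?_, ?_, ?_⟩, ?_, ?_, ?_⟩
    · unfold ald
      rw [h1]
    · show -(pl (κ ω)).s = -(pl (κ ω')).s
      rw [h2]
    · show -(pl (κ ω)).c = -(pl (κ ω')).c
      rw [h2]
    · rw [co0, co0]
      exact c0
    · rw [co1, co1]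
      exact c1
    · rw [co2, co2]
      exact c2

/-- Pairs of samples of one line in one window. -/
theorem pr (h : LxD F B ς w₀ wx wy q D n P C κ pl al a) (hB : 0 < Pe F.p B) {w : F.Ω × F.Ω}
    (hw : 0 < dbl (Pool.Agent.H49.Ent.cond F.p B True) (slam F wx) w) :
    B w.1 ∧ B w.2 ∧ F.l w.1 = F.l w.2 ∧ F.Z w.1 = F.Z w.2 ∧ F.T1 wx w.1 = F.T1 wx w.2 ∧
      κ w.1 = κ w.2 ∧ |al w.1 - al w.2| ≤ 2 * C / 2 ^ D ∧
      |a w.2 - ald D al w.1| ≤ 4 * C / 2 ^ D := by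
  have hp := isLaw_cond F.isLaw hB
  obtain ⟨g1, g2, g3⟩ := dbl_pos hp hw
  have b1 := on_pos g1
  have b2 := on_pos g2
  have hC := h.C1
  have e1 := Prod.ext_iff.mp g3
  have e2 := Prod.ext_iff.mp e1.2
  have hl : F.l w.1 = F.l w.2 := e1.1
  have hZ : F.Z w.1 = F.Z w.2 := e2.1
  have hT : F.T1 wx w.1 = F.T1 wx w.2 := e2.2
  obtain ⟨ψ, hψ⟩ := h.ksl
  obtain ⟨ζ, hζ⟩ := h.ax
  have hxJ : wx ≤ J := by
    have := h.lev
    have := h.PJ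
    omega
  have hk : κ w.1 = κ w.2 := by
    rw [hψ _ b1, hψ _ b2, slam_coarse F h.w0x hxJ w.1, slam_coarse F h.w0x hxJ w.2, g3]
  have ha : |al w.1 - al w.2| ≤ 2 * C / 2 ^ D := by
    have a1 := hζ _ b1
    have a2 := hζ _ b2
    rw [← g3, abs_sub_comm] at a2
    have a3 := abs_sub_le (al w.1) (ζ (slam F wx w.1)) (al w.2)
    have e3 : 2 * C / (2 : ℝ) ^ D = C / 2 ^ D + C / 2 ^ D := by ring
    linarith
  refine ⟨b1, b2, hl, hZ, hT, hk, ha, ?_⟩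
  have a1 := h.near _ b2
  rw [abs_sub_comm] at a1
  have a2 := ald_near D al w.1
  have a3 : C / (2 : ℝ) ^ (D + n) ≤ C / 2 ^ D := inv_le (by omega) (by linarith)
  have a4 : (1 : ℝ) / 2 ^ D ≤ C / 2 ^ D := div_le_div_of_nonneg_right hC (by positivity)
  have a5 := abs_sub_le (a w.2) (al w.2) (ald D al w.1)
  have a6 := abs_sub_le (al w.2) (al w.1) (ald D al w.1)
  rw [abs_sub_comm] at ha
  have e3 : 4 * C / (2 : ℝ) ^ D = C / 2 ^ D + 2 * C / 2 ^ D + C / 2 ^ D := by ring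
  linarith

/-- Two pairs with the same label at the first time and the same second time. -/
theorem two (h : LxD F B ς w₀ wx wy q D n P C κ pl al a) (hB : 0 < Pe F.p B)
    {w w' : F.Ω × F.Ω}
    (hw : 0 < dbl (Pool.Agent.H49.Ent.cond F.p B True) (slam F wx) w)
    (hw' : 0 < dbl (Pool.Agent.H49.Ent.cond F.p B True) (slam F wx) w')
    (hG : lxl F ς wx wy q (D + n) (wx + q + D + n) P κ pl a w.2 =
      lxl F ς wx wy q (D + n) (wx + q + D + n) P κ pl a w'.2) (hS : F.T w.1 = F.T w'.1) :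
    |F.x w.1 (ς 0) - F.x w'.1 (ς 0)| ≤ 2 / 2 ^ (wx + q) ∧
      |fu (ς 0) (ς 1) (a w.2) (F.x w.1) - fu (ς 0) (ς 1) (a w.2) (F.x w'.1)| ≤
        2 / 2 ^ (wx + q + D + n) ∧
      |fn (ς 0) (ς 1) (ς 2) (pl (κ w.2)).c (pl (κ w.2)).s (F.x w.1) -
        fn (ς 0) (ς 1) (ς 2) (pl (κ w.2)).c (pl (κ w.2)).s (F.x w'.1)| ≤ 2 / 2 ^ P := by
  obtain ⟨-, -, hl, -, hT1, -, -, -⟩ := pr h hB hw
  obtain ⟨-, -, hl', -, hT1', -, -, -⟩ := pr h hB hw'
  obtain ⟨eT, -, -, -, hN⟩ := lxl_ext hG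
  have hyJ : wy ≤ J := by
    have := h.lev
    have := h.PJ
    have := h.mn
    omega
  have hxP : wx ≤ P := by
    have := h.lev
    omega
  have e1 : wx + q + D + n = wx + q + (D + n) := by omega
  rw [e1] at hN ⊢
  have hδ := t_near (F := F) h.xy hyJ le_rfl hT1
  refine hN.mv le_rfl h.xy hxP hδ (x_move hl) ?_
  have e2 : F.t w.1 - (F.T1 wy w.2 : ℝ) / 2 ^ wy = F.t w'.1 - (F.T1 wy w'.2 : ℝ) / 2 ^ wy := by
    unfold Fam.t Fam.T1
    rw [hS, eT]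
  rw [e2]
  exact x_move hl'

/-- Two samples with the same label, at their time. -/
theorem one (h : LxD F B ς w₀ wx wy q D n P C κ pl al a) {ν ν' : F.Ω}
    (hG : lxl F ς wx wy q (D + n) (wx + q + D + n) P κ pl a ν =
      lxl F ς wx wy q (D + n) (wx + q + D + n) P κ pl a ν') :
    |F.x ν (ς 0) - F.x ν' (ς 0)| ≤ 2 / 2 ^ (wy + q) ∧
      |fu (ς 0) (ς 1) (a ν) (F.x ν) - fu (ς 0) (ς 1) (a ν) (F.x ν')| ≤
        2 / 2 ^ (wx + q + D + n) ∧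
      |fn (ς 0) (ς 1) (ς 2) (pl (κ ν)).c (pl (κ ν)).s (F.x ν) -
        fn (ς 0) (ς 1) (ς 2) (pl (κ ν)).c (pl (κ ν)).s (F.x ν')| ≤ 2 / 2 ^ P := by
  obtain ⟨eT, -, -, -, hN⟩ := lxl_ext hG
  have hyJ : wy ≤ J := by
    have := h.lev
    have := h.PJ
    have := h.mn
    omega
  have hxP : wx ≤ P := by
    have := h.lev
    omega
  have e1 : wx + q + D + n = wx + q + (D + n) := by omega
  rw [e1] at hN ⊢
  have hδ := t_near (F := F) (ω := ν) (ν := ν) (le_refl wy) hyJ le_rfl rfl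
  refine hN.mv h.xy le_rfl hxP hδ (x_move rfl) ?_
  have e2 : F.t ν - (F.T1 wy ν : ℝ) / 2 ^ wy = F.t ν' - (F.T1 wy ν' : ℝ) / 2 ^ wy := by
    unfold Fam.t Fam.T1
    rw [eT]
  rw [e2]
  exact x_move rfl

/-! ### The fields -/

theorem mul_pow_le {k N : ℕ} {x c : ℝ} (h : |x| ≤ c / 2 ^ N) {m : ℕ} (hm : m + k ≤ N)
    (hc : 0 ≤ c) : |(2 : ℝ) ^ k * x| ≤ c / 2 ^ m := by
  rw [abs_mul, abs_of_pos (by positivity : (0 : ℝ) < 2 ^ k)]
  calc (2 : ℝ) ^ k * |x| ≤ 2 ^ k * (c / 2 ^ N) := mul_le_mul_of_nonneg_left h (by positivity)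
    _ ≤ 2 ^ k * (c / 2 ^ (m + k)) := mul_le_mul_of_nonneg_left (inv_le hm hc) (by positivity)
    _ = c / 2 ^ m := by
        rw [pow_add]
        field_simp

/-- The times of one window. -/
theorem T_near {w : ℕ} {ω ν : F.Ω} (h : F.T1 w ω = F.T1 w ν) :
    |((F.T ω : ℤ) : ℝ) - (F.T ν : ℝ)| ≤ 2 ^ (J - w) := by
  unfold Fam.T1 at h
  have pM : 0 < 2 ^ (J - w) := by positivity
  have a1 := Nat.div_add_mod (F.T ω) (2 ^ (J - w))
  have a2 := Nat.div_add_mod (F.T ν) (2 ^ (J - w))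
  have a3 := Nat.mod_lt (F.T ω) pM
  have a4 := Nat.mod_lt (F.T ν) pM
  rw [h] at a1
  generalize 2 ^ (J - w) * (F.T ν / 2 ^ (J - w)) = z at a1 a2
  generalize hr : F.T ω % 2 ^ (J - w) = r at a1 a3
  generalize hr' : F.T ν % 2 ^ (J - w) = r' at a2 a4
  have b3 : (r : ℝ) < 2 ^ (J - w) := by exact_mod_cast a3
  have b4 : (r' : ℝ) < 2 ^ (J - w) := by exact_mod_cast a4
  have b5 : (0 : ℝ) ≤ r := Nat.cast_nonneg r
  have b6 : (0 : ℝ) ≤ r' := Nat.cast_nonneg r'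
  have e1 : ((F.T ω : ℤ) : ℝ) = z + r := by
    rw [← a1]
    push_cast
    ring
  have e2 : (F.T ν : ℝ) = z + r' := by
    rw [← a2]
    push_cast
    ring
  rw [e1, e2, abs_le]
  constructor <;> linarith

theorem x_diff {wx : ℕ} (hwx : wx ≤ J) {ω ν : F.Ω} (h : F.l ω = F.l ν) (q : ℕ) (i : Fin 3) :
    (2 : ℝ) ^ (wx + q) * F.x ω i = 2 ^ (wx + q) * F.x ν i +
      (((F.T ω : ℤ) : ℝ) - (F.T ν : ℝ)) / 2 ^ (J - wx) * (2 ^ q * F.d ν i) := by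
  have h1 : F.u ω = F.u ν ∧ F.d ω = F.d ν := Prod.ext_iff.mp h
  have e : (2 : ℝ) ^ J = 2 ^ wx * 2 ^ (J - wx) := by
    rw [← pow_add]
    congr 1
    omega
  unfold Fam.x Fam.t
  rw [h1.1, h1.2, e, pow_add]
  push_cast
  field_simp
  ring

theorem f_sG (h : LxD F B ς w₀ wx wy q D n P C κ pl al a) (hB : 0 < Pe F.p B)
    {w w' : F.Ω × F.Ω}
    (hw : 0 < dbl (Pool.Agent.H49.Ent.cond F.p B True) (slam F wx) w)
    (hw' : 0 < dbl (Pool.Agent.H49.Ent.cond F.p B True) (slam F wx) w')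
    (hG : lxl F ς wx wy q (D + n) (wx + q + D + n) P κ pl a w.2 =
      lxl F ς wx wy q (D + n) (wx + q + D + n) P κ pl a w'.2)
    (hc : cf F ς wx q D P κ pl al w.1 = cf F ς wx q D P κ pl al w'.1) :
    |(2 ^ (wx + q + D) * fu (ς 0) (ς 1) (ald D al w.1) (F.x w.1) -
        2 ^ (wx + q + D) * fu (ς 0) (ς 1) (ald D al w'.1) (F.x w'.1)) -
      2 ^ D * (a w.2 - ald D al w.1) * (2 ^ (wx + q) * F.x w.1 (ς 0) -
        2 ^ (wx + q) * F.x w'.1 (ς 0))| ≤ 2 / 2 ^ n := by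
  obtain ⟨⟨e1, -, e3, -⟩, -⟩ := cf_ext.1 hc
  have e4 : ald D al w.1 = ald D al w'.1 := by
    unfold ald
    rw [e1]
  obtain ⟨-, k2, -⟩ := two h hB hw hw' hG e3
  have e5 : (2 ^ (wx + q + D) * fu (ς 0) (ς 1) (ald D al w.1) (F.x w.1) -
        2 ^ (wx + q + D) * fu (ς 0) (ς 1) (ald D al w'.1) (F.x w'.1)) -
      2 ^ D * (a w.2 - ald D al w.1) * (2 ^ (wx + q) * F.x w.1 (ς 0) -
        2 ^ (wx + q) * F.x w'.1 (ς 0)) = 2 ^ (wx + q + D) *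
      (fu (ς 0) (ς 1) (a w.2) (F.x w.1) - fu (ς 0) (ς 1) (a w.2) (F.x w'.1)) := by
    rw [← e4, pow_add 2 (wx + q) D]
    unfold fu
    ring
  rw [e5]
  exact mul_pow_le k2 (by omega) (by norm_num)

theorem f_sz (h : LxD F B ς w₀ wx wy q D n P C κ pl al a) {ω ω' : F.Ω}
    (hc : cf F ς wx q D P κ pl al ω = cf F ς wx q D P κ pl al ω')
    (hz : zf F ς wx wy q D n al ω = zf F ς wx wy q D n al ω') :
    |(2 ^ (wx + q + D) * fu (ς 0) (ς 1) (ald D al ω) (F.x ω) -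
        2 ^ (wx + q + D) * fu (ς 0) (ς 1) (ald D al ω') (F.x ω')) -
      2 ^ D * (al ω - ald D al ω) * (2 ^ (wx + q) * F.x ω (ς 0) -
        2 ^ (wx + q) * F.x ω' (ς 0))| ≤ 2 / 2 ^ n ∧
      |2 ^ (wx + q) * F.x ω (ς 0) - 2 ^ (wx + q) * F.x ω' (ς 0)| ≤ 1 / 2 ^ (wy - wx) := by
  obtain ⟨⟨e1, -, e3, -⟩, -⟩ := cf_ext.1 hc
  have e4 : ald D al ω = ald D al ω' := by
    unfold ald
    rw [e1]
  have z1 := Prod.ext_iff.mp hz
  have z2 := Prod.ext_iff.mp z1.2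
  have z0 : Uni.dg (D + n) al ω = Uni.dg (D + n) al ω' := z1.1
  have z4 : ald (D + n) al ω = ald (D + n) al ω' := by
    unfold ald
    rw [z0]
  have k1 : |F.x ω (ς 0) - F.x ω' (ς 0)| ≤ 1 / 2 ^ (wy + q) := Box.near_of_floor z2.1
  have k2 : |fu (ς 0) (ς 1) (ald (D + n) al ω) (F.x ω) -
      fu (ς 0) (ς 1) (ald (D + n) al ω) (F.x ω')| ≤ 1 / 2 ^ (wx + q + D + n) := by
    refine Box.near_of_floor (?_ : ⌊(2 : ℝ) ^ (wx + q + D + n) *
      fu (ς 0) (ς 1) (ald (D + n) al ω) (F.x ω)⌋ = ⌊(2 : ℝ) ^ (wx + q + D + n) *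
      fu (ς 0) (ς 1) (ald (D + n) al ω) (F.x ω')⌋)
    have e := z2.2
    change _ = ⌊(2 : ℝ) ^ (wx + q + D + n) *
      fu (ς 0) (ς 1) (ald (D + n) al ω') (F.x ω')⌋ at e
    rw [← z4] at e
    exact e
  have hxy := h.xy
  constructor
  · have e5 : (2 ^ (wx + q + D) * fu (ς 0) (ς 1) (ald D al ω) (F.x ω) -
        2 ^ (wx + q + D) * fu (ς 0) (ς 1) (ald D al ω') (F.x ω')) -
      2 ^ D * (al ω - ald D al ω) * (2 ^ (wx + q) * F.x ω (ς 0) -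
        2 ^ (wx + q) * F.x ω' (ς 0)) = 2 ^ (wx + q + D) *
      ((fu (ς 0) (ς 1) (ald (D + n) al ω) (F.x ω) -
        fu (ς 0) (ς 1) (ald (D + n) al ω) (F.x ω')) +
        (ald (D + n) al ω - al ω) * (F.x ω (ς 0) - F.x ω' (ς 0))) := by
      rw [← e4, pow_add 2 (wx + q) D]
      unfold fu
      ring
    rw [e5]
    refine mul_pow_le (N := wx + q + D + n) ?_ (by omega) (by norm_num)
    refine (abs_add_le _ _).trans ?_
    rw [abs_mul]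
    have k3 := ald_near (D + n) al ω
    rw [abs_sub_comm] at k3
    have k4 : |ald (D + n) al ω - al ω| * |F.x ω (ς 0) - F.x ω' (ς 0)| ≤
        1 / 2 ^ (D + n) * (1 / 2 ^ (wy + q)) := mul_le_mul k3 k1 (abs_nonneg _) (by positivity)
    rw [inv_mul, one_mul] at k4
    have k5 : (1 : ℝ) / 2 ^ (D + n + (wy + q)) ≤ 1 / 2 ^ (wx + q + D + n) :=
      inv_le (by omega) zero_le_one
    have k6 : (2 : ℝ) / 2 ^ (wx + q + D + n) = 1 / 2 ^ (wx + q + D + n) +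
      1 / 2 ^ (wx + q + D + n) := by ring
    linarith
  · rw [← mul_sub]
    exact mul_pow_le k1 (by omega) (by norm_num)

/-- The bound for the differences of the integers. -/
noncomputable def nC (C : ℝ) : ℕ := ⌈8 * C + 8⌉₊

theorem le_nC (C : ℝ) : 8 * C + 8 ≤ nC C := Nat.le_ceil _

/-- The position of a pair relative to another pair with the same label and second time: the
integers of the context. -/
theorem cell (h : LxD F B ς w₀ wx wy q D n P C κ pl al a) (hB : 0 < Pe F.p B)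
    {w w' : F.Ω × F.Ω}
    (hw : 0 < dbl (Pool.Agent.H49.Ent.cond F.p B True) (slam F wx) w)
    (hw' : 0 < dbl (Pool.Agent.H49.Ent.cond F.p B True) (slam F wx) w')
    (hG : lxl F ς wx wy q (D + n) (wx + q + D + n) P κ pl a w.2 =
      lxl F ς wx wy q (D + n) (wx + q + D + n) P κ pl a w'.2) (hS : F.T w.1 = F.T w'.1) :
    |((Uni.dg D al w.1 - Uni.dg D al w'.1 : ℤ) : ℝ)| ≤ nC C ∧
      ∀ i, |((flk (ppr (wx + q) (wx + q + D) P) (mco (tfr ς (ald D al w.1)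
          (-(pl (κ w'.1)).s) (-(pl (κ w'.1)).c)) (F.x w.1)) i -
        flk (ppr (wx + q) (wx + q + D) P) (mco (tfr ς (ald D al w.1)
          (-(pl (κ w'.1)).s) (-(pl (κ w'.1)).c)) (F.x w'.1)) i : ℤ) : ℝ)| ≤ nC C := by
  obtain ⟨b1, b2, hl, hZ, hT1, hk, ha, hd⟩ := pr h hB hw
  obtain ⟨b1', b2', hl', hZ', hT1', hk', ha', hd'⟩ := pr h hB hw'
  obtain ⟨eT, eZ, ek, ea, -⟩ := lxl_ext hG
  obtain ⟨k0, k1, k2⟩ := two h hB hw hw' hG hS
  have hN := le_nC C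
  have hC := h.C1
  constructor
  · have a1 := h.near _ b2
    have a2 := h.near _ b2'
    rw [← ea] at a2
    have a3 : C / (2 : ℝ) ^ (D + n) ≤ C / 2 ^ D := inv_le (by omega) (by linarith)
    have a4 : |al w.1 - al w'.1| ≤ 6 * C / 2 ^ D := by
      have e : 6 * C / (2 : ℝ) ^ D = 2 * C / 2 ^ D + C / 2 ^ D + (C / 2 ^ D + 2 * C / 2 ^ D) := by
        ring
      rw [e]
      rw [abs_le] at a1 a2 ha ha' ⊢
      constructor <;> linarith [a1.1, a1.2, a2.1, a2.2, ha.1, ha.2, ha'.1, ha'.2]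
    unfold Uni.dg
    exact (fl_diff a4).trans (by linarith)
  · have e6 : (pl (κ w'.1)).s = (pl (κ w.2)).s := by rw [hk', ek]
    have e7 : (pl (κ w'.1)).c = (pl (κ w.2)).c := by rw [hk', ek]
    intro i
    fin_cases i
    · change |((⌊(2 : ℝ) ^ (wx + q) * mco (tfr ς (ald D al w.1) (-(pl (κ w'.1)).s)
        (-(pl (κ w'.1)).c)) (F.x w.1) 0⌋ - ⌊(2 : ℝ) ^ (wx + q) * mco (tfr ς (ald D al w.1)
        (-(pl (κ w'.1)).s) (-(pl (κ w'.1)).c)) (F.x w'.1) 0⌋ : ℤ) : ℝ)| ≤ _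
      rw [Box.mco_tfr0, Box.mco_tfr0]
      exact (fl_diff k0).trans (by linarith)
    · change |((⌊(2 : ℝ) ^ (wx + q + D) * mco (tfr ς (ald D al w.1) (-(pl (κ w'.1)).s)
        (-(pl (κ w'.1)).c)) (F.x w.1) 1⌋ - ⌊(2 : ℝ) ^ (wx + q + D) * mco (tfr ς (ald D al w.1)
        (-(pl (κ w'.1)).s) (-(pl (κ w'.1)).c)) (F.x w'.1) 1⌋ : ℤ) : ℝ)| ≤ _
      rw [Box.mco_tfr1, Box.mco_tfr1]
      have k3 := mv_fu (ς := ς) (e' := ald D al w.1) (c := 4 * C) (M := wx + q + D)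
        (by linarith) k0 k1 hd (by omega) (by omega)
      exact (fl_diff k3).trans (by linarith)
    · change |((⌊(2 : ℝ) ^ P * mco (tfr ς (ald D al w.1) (-(pl (κ w'.1)).s)
        (-(pl (κ w'.1)).c)) (F.x w.1) 2⌋ - ⌊(2 : ℝ) ^ P * mco (tfr ς (ald D al w.1)
        (-(pl (κ w'.1)).s) (-(pl (κ w'.1)).c)) (F.x w'.1) 2⌋ : ℤ) : ℝ)| ≤ _
      rw [Box.mco_tfr2, Box.mco_tfr2]
      have e8 : ∀ z : F.Ω, F.x z (ς 2) - -(pl (κ w'.1)).s * F.x z (ς 1) -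
          -(pl (κ w'.1)).c * F.x z (ς 0) =
          fn (ς 0) (ς 1) (ς 2) (pl (κ w.2)).c (pl (κ w.2)).s (F.x z) := by
        intro z
        rw [e6, e7]
        unfold fn
        ring
      rw [e8, e8]
      exact (fl_diff k2).trans (by linarith)

theorem f_cN (h : LxD F B ς w₀ wx wy q D n P C κ pl al a) (hB : 0 < Pe F.p B) :
    ∃ Fs : _ × ℤ → Finset _, (∀ y, ((Fs y).card : ℝ) ≤ ((2 * nC C + 1 : ℕ) : ℝ) ^ 4) ∧
      ∀ w, 0 < dbl (Pool.Agent.H49.Ent.cond F.p B True) (slam F wx) w →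
        cf F ς wx q D P κ pl al w.1 ∈
          Fs (lxl F ς wx wy q (D + n) (wx + q + D + n) P κ pl a w.2, (F.T w.1 : ℤ)) := by
  classical
  obtain ⟨N, hN⟩ : ∃ N, N = nC C := ⟨_, rfl⟩
  obtain ⟨el, hel⟩ : ∃ el : F.Ω × F.Ω → ℤ × (Fin 3 → ℤ) →
      ((ℝ × ℝ × ℝ) × (Fin 3 → ℤ)) × (ℤ × (Λ × (ℕ × F.ζ))), el = fun w y =>
    ((((y.1 : ℝ) / 2 ^ D, -(pl (κ w.1)).s, -(pl (κ w.1)).c), fun i =>
      flk (ppr (wx + q) (wx + q + D) P) (mco (tfr ς ((y.1 : ℝ) / 2 ^ D)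
        (-(pl (κ w.1)).s) (-(pl (κ w.1)).c)) (F.x w.1)) i + y.2 i), (y.1, (κ w.1, F.W w.1))) :=
    ⟨_, rfl⟩
  obtain ⟨bs, hbs⟩ : ∃ bs : F.Ω × F.Ω → Finset (ℤ × (Fin 3 → ℤ)), bs = fun w =>
    Finset.Icc (Uni.dg D al w.1 - N) (Uni.dg D al w.1 + N) ×ˢ
      Fintype.piFinset (fun _ : Fin 3 => Finset.Icc (-(N : ℤ)) N) := ⟨_, rfl⟩
  have hcard : ∀ w, (bs w).card = (2 * N + 1) ^ 4 := by
    intro w
    rw [hbs]
    simp only
    rw [Finset.card_product, Int.card_Icc, Fintype.card_piFinset]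
    simp only [Int.card_Icc, Finset.prod_const, Finset.card_univ, Fintype.card_fin]
    have e1 : (Uni.dg D al w.1 + N + 1 - (Uni.dg D al w.1 - N)).toNat = 2 * N + 1 := by omega
    have e2 : ((N : ℤ) + 1 - -(N : ℤ)).toNat = 2 * N + 1 := by omega
    rw [e1, e2]
    ring
  obtain ⟨Q, hQ⟩ : ∃ Q : (F.Ω × F.Ω) → Prop, Q = fun w =>
    0 < dbl (Pool.Agent.H49.Ent.cond F.p B True) (slam F wx) w := ⟨_, rfl⟩
  refine ⟨fun y => if hy : ∃ w, Q w ∧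
      lxl F ς wx wy q (D + n) (wx + q + D + n) P κ pl a w.2 = y.1 ∧ (F.T w.1 : ℤ) = y.2 then
      (bs hy.choose).image (el hy.choose) else ∅, ?_, ?_⟩
  · intro y
    by_cases hy : ∃ w, Q w ∧
      lxl F ς wx wy q (D + n) (wx + q + D + n) P κ pl a w.2 = y.1 ∧ (F.T w.1 : ℤ) = y.2
    · simp only [dif_pos hy]
      have k1 : ((bs hy.choose).image (el hy.choose)).card ≤ (2 * N + 1) ^ 4 := by
        rw [← hcard hy.choose]
        exact Finset.card_image_le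
      rw [← hN]
      exact_mod_cast k1
    · simp only [dif_neg hy, Finset.card_empty, Nat.cast_zero]
      positivity
  · intro w hw
    have hy : ∃ w', Q w' ∧ lxl F ς wx wy q (D + n) (wx + q + D + n) P κ pl a w'.2 =
        (lxl F ς wx wy q (D + n) (wx + q + D + n) P κ pl a w.2, (F.T w.1 : ℤ)).1 ∧
        (F.T w'.1 : ℤ) = (lxl F ς wx wy q (D + n) (wx + q + D + n) P κ pl a w.2,
          (F.T w.1 : ℤ)).2 := ⟨w, by rw [hQ]; exact hw, rfl, rfl⟩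
    simp only [dif_pos hy]
    obtain ⟨v, hv⟩ : ∃ v, v = hy.choose := ⟨_, rfl⟩
    obtain ⟨v1, v2, v3⟩ := hy.choose_spec
    rw [← hv] at v1 v2 v3 ⊢
    rw [hQ] at v1
    have v3' : F.T w.1 = F.T v.1 := by
      have v4 : (F.T v.1 : ℤ) = (F.T w.1 : ℤ) := v3
      exact_mod_cast v4.symm
    obtain ⟨c1, c2⟩ := cell h hB hw v1 v2.symm v3'
    obtain ⟨-, eZ, ek, -, -⟩ := lxl_ext v2
    obtain ⟨-, -, -, hZ, -, hk, -, -⟩ := pr h hB hw
    obtain ⟨-, -, -, hZ', -, hk', -, -⟩ := pr h hB v1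
    have ek' : κ w.1 = κ v.1 := by rw [hk, hk', ek]
    have eW : F.W w.1 = F.W v.1 := Prod.ext v3' (by
      show F.Z w.1 = F.Z v.1
      rw [hZ, hZ', eZ])
    rw [Finset.mem_image]
    refine ⟨(Uni.dg D al w.1, fun i => flk (ppr (wx + q) (wx + q + D) P)
      (mco (tfr ς (ald D al w.1) (-(pl (κ v.1)).s) (-(pl (κ v.1)).c)) (F.x w.1)) i -
        flk (ppr (wx + q) (wx + q + D) P)
      (mco (tfr ς (ald D al w.1) (-(pl (κ v.1)).s) (-(pl (κ v.1)).c)) (F.x v.1)) i), ?_, ?_⟩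
    · rw [hbs]
      simp only [Finset.mem_product, Finset.mem_Icc, Fintype.mem_piFinset]
      have d1 : |Uni.dg D al w.1 - Uni.dg D al v.1| ≤ (N : ℤ) := by
        rw [hN]
        exact_mod_cast c1
      have d2 : ∀ i, |flk (ppr (wx + q) (wx + q + D) P)
          (mco (tfr ς (ald D al w.1) (-(pl (κ v.1)).s) (-(pl (κ v.1)).c)) (F.x w.1)) i -
          flk (ppr (wx + q) (wx + q + D) P)
          (mco (tfr ς (ald D al w.1) (-(pl (κ v.1)).s) (-(pl (κ v.1)).c)) (F.x v.1)) i| ≤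
          (N : ℤ) := by
        intro i
        rw [hN]
        exact_mod_cast c2 i
      refine ⟨?_, fun i => ?_⟩
      · have := abs_le.1 d1
        constructor <;> linarith [this.1, this.2]
      · exact abs_le.1 (d2 i)
    · rw [hel]
      unfold cf
      refine Prod.ext (Prod.ext ?_ ?_) (Prod.ext rfl (Prod.ext ek'.symm eW.symm))
      · show ((Uni.dg D al w.1 : ℝ) / 2 ^ D, -(pl (κ v.1)).s, -(pl (κ v.1)).c) =
          (ald D al w.1, -(pl (κ w.1)).s, -(pl (κ w.1)).c)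
        rw [ek']
        rfl
      · funext i
        show flk (ppr (wx + q) (wx + q + D) P) (mco (tfr ς (ald D al w.1)
          (-(pl (κ v.1)).s) (-(pl (κ v.1)).c)) (F.x v.1)) i +
          (flk (ppr (wx + q) (wx + q + D) P) (mco (tfr ς (ald D al w.1)
          (-(pl (κ v.1)).s) (-(pl (κ v.1)).c)) (F.x w.1)) i -
          flk (ppr (wx + q) (wx + q + D) P) (mco (tfr ς (ald D al w.1)
          (-(pl (κ v.1)).s) (-(pl (κ v.1)).c)) (F.x v.1)) i) =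
          flk (ppr (wx + q) (wx + q + D) P) (mco (tfr ς (ald D al w.1)
          (-(pl (κ w.1)).s) (-(pl (κ w.1)).c)) (F.x w.1)) i
        rw [ek']
        ring

/-- The cells at the second time. -/
noncomputable def v5 (F : Fam 3 J) (ς : Fin 3 → Fin 3) (wx wy q D n P : ℕ) (κ : F.Ω → Λ)
    (pl : Λ → Pln) (al : F.Ω → ℝ) (ω : F.Ω) : Fin 5 → ℤ :=
  ![⌊(2 : ℝ) ^ (wx + q) * F.x ω (ς 0)⌋,
    ⌊(2 : ℝ) ^ (wx + q + D) * fu (ς 0) (ς 1) (ald D al ω) (F.x ω)⌋,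
    ⌊(2 : ℝ) ^ P * fn (ς 0) (ς 1) (ς 2) (pl (κ ω)).c (pl (κ ω)).s (F.x ω)⌋,
    ⌊(2 : ℝ) ^ (wy + q) * F.x ω (ς 0)⌋,
    ⌊(2 : ℝ) ^ (wx + q + D + n) * fu (ς 0) (ς 1) (ald (D + n) al ω) (F.x ω)⌋]

theorem f_3 (h : LxD F B ς w₀ wx wy q D n P C κ pl al a) (hB : 0 < Pe F.p B) {T : Type}
    (X : F.Ω → T) :
    CH (Pool.Agent.H49.Ent.cond F.p B True) X
        (lxl F ς wx wy q (D + n) (wx + q + D + n) P κ pl a) -
      6 * Real.log (2 * nC C + 1) ≤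
      CH (Pool.Agent.H49.Ent.cond F.p B True) X
        (fun ω => (cf F ς wx q D P κ pl al ω, zf F ς wx wy q D n al ω)) := by
  have hp := isLaw_cond F.isLaw hB
  have h0 := hp.nonneg
  have hC := h.C1
  have hN := le_nC C
  have hxy := h.xy
  obtain ⟨lx, hlx⟩ : ∃ lx, lx = lxl F ς wx wy q (D + n) (wx + q + D + n) P κ pl a := ⟨_, rfl⟩
  have hl : ∀ {ν ν' : F.Ω}, lx ν = lx ν' →
      lxl F ς wx wy q (D + n) (wx + q + D + n) P κ pl a ν =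
      lxl F ς wx wy q (D + n) (wx + q + D + n) P κ pl a ν' := by
    intro ν ν' e
    rw [hlx] at e
    exact e
  rw [← hlx]
  have k1 := CH_le_add h0 X (fun ω => (cf F ς wx q D P κ pl al ω, zf F ς wx wy q D n al ω)) lx
  have k2 : CH (Pool.Agent.H49.Ent.cond F.p B True) X
      (fun ω => ((cf F ς wx q D P κ pl al ω, zf F ς wx wy q D n al ω), lx ω)) ≤
      CH (Pool.Agent.H49.Ent.cond F.p B True) X
        (fun ω => (cf F ς wx q D P κ pl al ω, zf F ς wx wy q D n al ω)) :=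
    CH_mono_cond h0 fun _ _ _ _ e => (Prod.ext_iff.mp e).1
  have k3 := CH_le_add h0 (fun ω => (cf F ς wx q D P κ pl al ω, zf F ς wx wy q D n al ω))
    (Uni.dg (D + n) al) lx
  have k4 : CH (Pool.Agent.H49.Ent.cond F.p B True) (Uni.dg (D + n) al) lx ≤
      Real.log (2 * nC C + 1) := by
    refine CH_int hp _ _ (c := (nC C : ℝ)) ?_
    intro ν ν' hν hν' e
    obtain ⟨-, -, -, ea, -⟩ := lxl_ext (hl e)
    have a1 := h.near _ (on_pos hν)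
    have a2 := h.near _ (on_pos hν')
    rw [← ea] at a2
    have a3 : |al ν - al ν'| ≤ 2 * C / 2 ^ (D + n) := by
      have e3 : 2 * C / (2 : ℝ) ^ (D + n) = C / 2 ^ (D + n) + C / 2 ^ (D + n) := by ring
      rw [e3]
      rw [abs_le] at a1 a2 ⊢
      constructor <;> linarith [a1.1, a1.2, a2.1, a2.2]
    unfold Uni.dg
    exact (fl_diff a3).trans (by linarith)
  have k5 : CH (Pool.Agent.H49.Ent.cond F.p B True)
      (fun ω => (cf F ς wx q D P κ pl al ω, zf F ς wx wy q D n al ω))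
      (fun ω => (Uni.dg (D + n) al ω, lx ω)) ≤ CH (Pool.Agent.H49.Ent.cond F.p B True)
      (v5 F ς wx wy q D n P κ pl al) (fun ω => (Uni.dg (D + n) al ω, lx ω)) := by
    refine CH_mono_left h0 ?_
    intro ν ν' _ _ e
    have e1 := Prod.ext_iff.mp e
    have e2 := Prod.ext_iff.mp e1.2
    have ev : v5 F ς wx wy q D n P κ pl al ν = v5 F ς wx wy q D n P κ pl al ν' := e1.1
    have ed : Uni.dg (D + n) al ν = Uni.dg (D + n) al ν' := e2.1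
    obtain ⟨eT, eZ, ek, ea, -⟩ := lxl_ext (hl e2.2)
    refine Prod.ext (cf_ext.2 ⟨⟨dg_mono (by omega) ed, ek, eT, eZ⟩, congrFun ev 0,
      congrFun ev 1, congrFun ev 2⟩) (Prod.ext ed (Prod.ext (congrFun ev 3) (congrFun ev 4)))
  have k6 : CH (Pool.Agent.H49.Ent.cond F.p B True)
      (v5 F ς wx wy q D n P κ pl al) (fun ω => (Uni.dg (D + n) al ω, lx ω)) ≤
      (5 : ℕ) * Real.log (2 * nC C + 1) := by
    refine Plk.CH_vec_const hp _ _ (c := (nC C : ℝ)) ?_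
    intro ν ν' hν hν' e
    have e2 := Prod.ext_iff.mp e
    have ed : Uni.dg (D + n) al ν = Uni.dg (D + n) al ν' := e2.1
    have ed' : Uni.dg D al ν = Uni.dg D al ν' := dg_mono (by omega) ed
    have eb : ald D al ν = ald D al ν' := by
      unfold ald
      rw [ed']
    have eb' : ald (D + n) al ν = ald (D + n) al ν' := by
      unfold ald
      rw [ed]
    obtain ⟨eT, eZ, ek, ea, -⟩ := lxl_ext (hl e2.2)
    obtain ⟨c0, c1, c2⟩ := one h (hl e2.2)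
    have a1 := h.near _ (on_pos hν)
    rw [abs_sub_comm] at a1
    have a2 : |a ν - ald D al ν| ≤ 2 * C / 2 ^ D := by
      have a3 := ald_near D al ν
      have a4 := abs_sub_le (a ν) (al ν) (ald D al ν)
      have a5 : C / (2 : ℝ) ^ (D + n) ≤ C / 2 ^ D := inv_le (by omega) (by linarith)
      have a6 : (1 : ℝ) / 2 ^ D ≤ C / 2 ^ D := div_le_div_of_nonneg_right hC (by positivity)
      have e3 : 2 * C / (2 : ℝ) ^ D = C / 2 ^ D + C / 2 ^ D := by ring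
      linarith
    have a2' : |a ν - ald (D + n) al ν| ≤ 2 * C / 2 ^ (D + n) := by
      have a3 := ald_near (D + n) al ν
      have a4 := abs_sub_le (a ν) (al ν) (ald (D + n) al ν)
      have a6 : (1 : ℝ) / 2 ^ (D + n) ≤ C / 2 ^ (D + n) :=
        div_le_div_of_nonneg_right hC (by positivity)
      have e3 : 2 * C / (2 : ℝ) ^ (D + n) = C / 2 ^ (D + n) + C / 2 ^ (D + n) := by ring
      linarith
    intro i
    fin_cases i
    · change |((⌊(2 : ℝ) ^ (wx + q) * F.x ν (ς 0)⌋ -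
        ⌊(2 : ℝ) ^ (wx + q) * F.x ν' (ς 0)⌋ : ℤ) : ℝ)| ≤ _
      exact (fl_diff (c0.trans (inv_le (by omega) (by norm_num)))).trans (by linarith)
    · change |((⌊(2 : ℝ) ^ (wx + q + D) * fu (ς 0) (ς 1) (ald D al ν) (F.x ν)⌋ -
        ⌊(2 : ℝ) ^ (wx + q + D) * fu (ς 0) (ς 1) (ald D al ν') (F.x ν')⌋ : ℤ) : ℝ)| ≤ _
      rw [← eb]
      have k3 := mv_fu (ς := ς) (e' := ald D al ν) (c := 2 * C) (M := wx + q + D)
        (by linarith) c0 c1 a2 (by omega) (by omega)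
      exact (fl_diff k3).trans (by linarith)
    · change |((⌊(2 : ℝ) ^ P * fn (ς 0) (ς 1) (ς 2) (pl (κ ν)).c (pl (κ ν)).s (F.x ν)⌋ -
        ⌊(2 : ℝ) ^ P * fn (ς 0) (ς 1) (ς 2) (pl (κ ν')).c (pl (κ ν')).s (F.x ν')⌋ : ℤ) : ℝ)| ≤ _
      rw [← ek]
      exact (fl_diff c2).trans (by linarith)
    · change |((⌊(2 : ℝ) ^ (wy + q) * F.x ν (ς 0)⌋ -
        ⌊(2 : ℝ) ^ (wy + q) * F.x ν' (ς 0)⌋ : ℤ) : ℝ)| ≤ _
      exact (fl_diff c0).trans (by linarith)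
    · change |((⌊(2 : ℝ) ^ (wx + q + D + n) *
          fu (ς 0) (ς 1) (ald (D + n) al ν) (F.x ν)⌋ -
        ⌊(2 : ℝ) ^ (wx + q + D + n) *
          fu (ς 0) (ς 1) (ald (D + n) al ν') (F.x ν')⌋ : ℤ) : ℝ)| ≤ _
      rw [← eb']
      have k3 := mv_fu (ς := ς) (e' := ald (D + n) al ν) (c := 2 * C) (M := wx + q + D + n)
        (by linarith) c0 c1 a2' (by omega) (by omega)
      exact (fl_diff k3).trans (by linarith)
  push_cast at k6
  linarith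

theorem f_tur (h : LxD F B ς w₀ wx wy q D n P C κ pl al a) (hB : 0 < Pe F.p B) {g : ℕ}
    (hg : C / 2 ^ n ≤ 1 / 2 ^ (g + 1)) {ε₀ : ℝ}
    (ht : Pool.KAF.Pr (dbl (Pool.Agent.H49.Ent.cond F.p B True) (slam F wx))
      {v | |al v.1 - al v.2| ≤ 1 / 2 ^ (D + g)} ≤ ε₀) :
    Pool.KAF.Pr (dbl (Pool.Agent.H49.Ent.cond F.p B True) (slam F wx))
      {w | |2 ^ D * (a w.2 - ald D al w.1) - 2 ^ D * (al w.1 - ald D al w.1)| <
        1 / 2 ^ (g + 1)} ≤ ε₀ := by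
  have hp := isLaw_cond F.isLaw hB
  refine le_trans (Pool.KAF.Pr_mono (Pool.S6U.dbl_law hp _).nonneg ?_) ht
  intro w hw hw2
  obtain ⟨g1, g2, g3⟩ := dbl_pos hp hw
  have a1 := h.near _ (on_pos g2)
  have e1 : 2 ^ D * (a w.2 - ald D al w.1) - 2 ^ D * (al w.1 - ald D al w.1) =
    2 ^ D * (a w.2 - al w.1) := by ring
  have hw3 : |2 ^ D * (a w.2 - ald D al w.1) - 2 ^ D * (al w.1 - ald D al w.1)| <
    1 / 2 ^ (g + 1) := hw2
  show |al w.1 - al w.2| ≤ 1 / 2 ^ (D + g)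
  have pD : (0 : ℝ) < 2 ^ D := by positivity
  rw [e1, abs_mul, abs_of_pos pD] at hw3
  have a2 : 2 ^ D * |al w.2 - a w.2| ≤ 1 / 2 ^ (g + 1) := by
    calc 2 ^ D * |al w.2 - a w.2| ≤ 2 ^ D * (C / 2 ^ (D + n)) :=
          mul_le_mul_of_nonneg_left a1 pD.le
      _ = C / 2 ^ n := by
          rw [pow_add]
          field_simp
      _ ≤ _ := hg
  have a3 : |al w.1 - al w.2| ≤ |a w.2 - al w.1| + |al w.2 - a w.2| := by
    have := abs_sub_le (al w.1) (a w.2) (al w.2)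
    rw [abs_sub_comm (al w.1) (a w.2), abs_sub_comm (a w.2) (al w.2)] at this
    exact this
  have a4 : 2 ^ D * |al w.1 - al w.2| ≤ 1 / 2 ^ g := by
    have e2 : (1 : ℝ) / 2 ^ g = 1 / 2 ^ (g + 1) + 1 / 2 ^ (g + 1) := by
      rw [pow_succ]
      field_simp
      norm_num
    have a5 := mul_le_mul_of_nonneg_left a3 pD.le
    rw [mul_add] at a5
    linarith
  rw [pow_add]
  have e3 : (1 : ℝ) / (2 ^ D * 2 ^ g) = 1 / 2 ^ g / 2 ^ D := by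
    field_simp
  rw [e3, le_div_iff₀ pD]
  linarith

/-- **The data of LEMMA X.** -/
theorem xd (h : LxD F B ς w₀ wx wy q D n P C κ pl al a) (hB : 0 < Pe F.p B) {g : ℕ}
    (hg : C / 2 ^ n ≤ 1 / 2 ^ (g + 1)) {d ε₀ : ℝ}
    (h1 : ((n : ℝ) - (wy - wx)) * Real.log 2 - d ≤ CH (Pool.Agent.H49.Ent.cond F.p B True)
      (fun ω => ⌊(2 : ℝ) ^ (wx + q + n) * F.x ω (ς 0)⌋)
      (lxl F ς wx wy q (D + n) (wx + q + D + n) P κ pl a))
    (h2 : ((J : ℝ) - wx) * Real.log 2 - d ≤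
      CH (Pool.Agent.H49.Ent.cond F.p B True) F.T (slam F wx))
    (ht : Pool.KAF.Pr (dbl (Pool.Agent.H49.Ent.cond F.p B True) (slam F wx))
      {v | |al v.1 - al v.2| ≤ 1 / 2 ^ (D + g)} ≤ ε₀) :
    Pool.LX.XD (dbl (Pool.Agent.H49.Ent.cond F.p B True) (slam F wx))
      (fun w => lxl F ς wx wy q (D + n) (wx + q + D + n) P κ pl a w.2)
      (fun w => slam F wx w.2) (fun w => (F.T w.1 : ℤ))
      (fun w => cf F ς wx q D P κ pl al w.1) (fun w => zf F ς wx wy q D n al w.1)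
      (fun w => 2 ^ (wx + q) * F.x w.2 (ς 0)) (fun w => 2 ^ q * F.d w.2 (ς 0))
      (fun w => 2 ^ (wx + q) * F.x w.1 (ς 0))
      (fun w => 2 ^ (wx + q + D) * fu (ς 0) (ς 1) (ald D al w.1) (F.x w.1))
      (fun w => 2 ^ D * (a w.2 - ald D al w.1)) (fun w => 2 ^ D * (al w.1 - ald D al w.1))
      n (wy - wx) (J - wx) (((2 * nC C + 1 : ℕ) : ℝ) ^ 4) (1 / 2 ^ (g + 1))
      (d + 6 * Real.log (2 * nC C + 1)) ε₀ := by
  have hp := isLaw_cond F.isLaw hB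
  have hC := h.C1
  have hN := le_nC C
  have hxy := h.xy
  have hmn := h.mn
  have hlev := h.lev
  have hPJ := h.PJ
  have hwJ : wx ≤ J := by omega
  have hBig : (nC C : ℝ) ≤ ((2 * nC C + 1 : ℕ) : ℝ) ^ 4 := by
    have e1 : (1 : ℝ) ≤ ((2 * nC C + 1 : ℕ) : ℝ) := by
      push_cast
      have : (0 : ℝ) ≤ nC C := Nat.cast_nonneg _
      linarith
    have e2 : ((2 * nC C + 1 : ℕ) : ℝ) ≤ ((2 * nC C + 1 : ℕ) : ℝ) ^ 4 :=
      le_self_pow₀ e1 (by norm_num)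
    refine le_trans ?_ e2
    push_cast
    have : (0 : ℝ) ≤ nC C := Nat.cast_nonneg _
    linarith
  obtain ⟨K, hK⟩ : ∃ K : ℝ, K = ((2 * nC C + 1 : ℕ) : ℝ) ^ 4 := ⟨_, rfl⟩
  rw [← hK] at hBig ⊢
  have hK16 : 16 ≤ K := by linarith
  have hlog : 0 ≤ Real.log (2 * nC C + 1) := by
    refine Real.log_nonneg ?_
    have : (0 : ℝ) ≤ nC C := Nat.cast_nonneg _
    linarith
  have hm : ((wy - wx : ℕ) : ℝ) = wy - wx := by
    rw [Nat.cast_sub hxy]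
  have hM : ((J - wx : ℕ) : ℝ) = J - wx := by
    rw [Nat.cast_sub hwJ]
  have hle : ∀ {k : ℕ} {e : ℝ}, e ≤ 16 → e / (2 : ℝ) ^ k ≤ K / 2 ^ k := fun he =>
    div_le_div_of_nonneg_right (by linarith) (by positivity)
  refine ⟨Pool.S6U.dbl_law hp _, by linarith, by positivity, ?_, by omega, by omega, ?_, ?_, ?_,
    ?_, ?_, ?_, ?_, ?_, ?_, ?_, ?_, ?_, ?_, f_tur h hB hg ht⟩
  · rw [div_le_one (by positivity)]
    exact one_le_pow₀ (by norm_num)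
  · -- det
    intro w w' _ _ hG hL
    obtain ⟨eT, -, -, -, -⟩ := lxl_ext hG
    have hl : F.l w.2 = F.l w'.2 := (Prod.ext_iff.mp hL).1
    have h1 : F.u w.2 = F.u w'.2 ∧ F.d w.2 = F.d w'.2 := Prod.ext_iff.mp hl
    constructor
    · show (2 : ℝ) ^ (wx + q) * F.x w.2 (ς 0) = 2 ^ (wx + q) * F.x w'.2 (ς 0)
      unfold Fam.x Fam.t
      rw [h1.1, h1.2, eT]
    · show (2 : ℝ) ^ q * F.d w.2 (ς 0) = 2 ^ q * F.d w'.2 (ς 0)
      rw [h1.2]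
  · -- mov
    refine ⟨fun y => (y.1 : ℝ), ?_, ?_⟩
    · intro w hw
      obtain ⟨-, -, -, -, hT1, -, -, -⟩ := pr h hB hw
      refine (T_near hT1).trans ?_
      have : (0 : ℝ) ≤ 2 ^ (J - wx) := by positivity
      nlinarith
    · intro w w' hw hw' hG hS
      obtain ⟨-, -, hl, -, -, -, -, -⟩ := pr h hB hw
      obtain ⟨-, -, hl', -, -, -, -, -⟩ := pr h hB hw'
      obtain ⟨eT, -, -, -, -⟩ := lxl_ext hG
      have hS' : (F.T w.1 : ℤ) = (F.T w'.1 : ℤ) := hS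
      have e1 := x_diff (F := F) hwJ hl q (ς 0)
      have e2 := x_diff (F := F) hwJ hl' q (ς 0)
      rw [← hS', ← eT] at e2
      show |((2 : ℝ) ^ (wx + q) * F.x w.1 (ς 0) - 2 ^ (wx + q) * F.x w'.1 (ς 0)) -
        ((2 ^ (wx + q) * F.x w.2 (ς 0) - 2 ^ (wx + q) * F.x w'.2 (ς 0)) +
          (((F.T w.1 : ℤ) : ℝ) - (F.T w.2 : ℝ)) / 2 ^ (J - wx) *
          (2 ^ q * F.d w.2 (ς 0) - 2 ^ q * F.d w'.2 (ς 0)))| ≤ K / 2 ^ n
      rw [e1, e2]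
      have e3 : ((2 : ℝ) ^ (wx + q) * F.x w.2 (ς 0) +
          (((F.T w.1 : ℤ) : ℝ) - (F.T w.2 : ℝ)) / 2 ^ (J - wx) * (2 ^ q * F.d w.2 (ς 0)) -
          (2 ^ (wx + q) * F.x w'.2 (ς 0) +
          (((F.T w.1 : ℤ) : ℝ) - (F.T w.2 : ℝ)) / 2 ^ (J - wx) * (2 ^ q * F.d w'.2 (ς 0)))) -
        ((2 ^ (wx + q) * F.x w.2 (ς 0) - 2 ^ (wx + q) * F.x w'.2 (ς 0)) +
          (((F.T w.1 : ℤ) : ℝ) - (F.T w.2 : ℝ)) / 2 ^ (J - wx) *
          (2 ^ q * F.d w.2 (ς 0) - 2 ^ q * F.d w'.2 (ς 0))) = 0 := by ring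
      rw [e3, abs_zero]
      positivity
  · -- vG
    intro w w' hw hw' hG
    obtain ⟨-, -, -, -, hNr⟩ := lxl_ext hG
    obtain ⟨c0, -, -⟩ := one h hG
    constructor
    · show |(2 : ℝ) ^ q * F.d w.2 (ς 0) - 2 ^ q * F.d w'.2 (ς 0)| ≤ K
      rw [← mul_sub]
      have := mul_pow_le (k := q) (m := 0) hNr.d0 (by omega) zero_le_one
      rw [pow_zero, div_one] at this
      linarith
    · show |(2 : ℝ) ^ (wx + q) * F.x w.2 (ς 0) - 2 ^ (wx + q) * F.x w'.2 (ς 0)| ≤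
        K / 2 ^ (wy - wx)
      rw [← mul_sub]
      exact (mul_pow_le (k := wx + q) (m := wy - wx) c0 (by omega) (by norm_num)).trans
        (hle (by norm_num))
  · -- gG
    intro w w' _ _ hG hc
    obtain ⟨-, -, -, ea, -⟩ := lxl_ext hG
    obtain ⟨⟨e1, -, -, -⟩, -⟩ := cf_ext.1 hc
    show (2 : ℝ) ^ D * (a w.2 - ald D al w.1) = 2 ^ D * (a w'.2 - ald D al w'.1)
    unfold ald
    rw [ea, e1]
  · -- sG
    intro w w' hw hw' hG hc
    exact (f_sG h hB hw hw' hG hc).trans (hle (by norm_num))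
  · -- sz
    intro w w' _ _ hc hz
    obtain ⟨k1, k2⟩ := f_sz h hc hz
    exact ⟨k1.trans (hle (by norm_num)), k2.trans (hle (by norm_num))⟩
  · -- gB
    intro w hw
    obtain ⟨-, -, -, -, -, -, -, hd⟩ := pr h hB hw
    have pD : (0 : ℝ) < 2 ^ D := by positivity
    constructor
    · show |(2 : ℝ) ^ D * (a w.2 - ald D al w.1)| ≤ K
      have := mul_pow_le (k := D) (m := 0) hd (by omega) (by linarith)
      rw [pow_zero, div_one] at this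
      linarith
    · show |(2 : ℝ) ^ D * (al w.1 - ald D al w.1)| ≤ K
      have := mul_pow_le (k := D) (m := 0) (ald_near D al w.1) (by omega) zero_le_one
      rw [pow_zero, div_one] at this
      linarith
  · -- cS
    intro w w' _ _ hc
    obtain ⟨⟨-, -, e3, -⟩, -⟩ := cf_ext.1 hc
    show (F.T w.1 : ℤ) = (F.T w'.1 : ℤ)
    rw [e3]
  · -- cB
    intro w w' _ _ hc
    obtain ⟨-, c0, -, -⟩ := cf_ext.1 hc
    show |(2 : ℝ) ^ (wx + q) * F.x w.1 (ς 0) - 2 ^ (wx + q) * F.x w'.1 (ς 0)| ≤ K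
    rw [← mul_sub]
    have := mul_pow_le (k := wx + q) (m := 0) (Box.near_of_floor c0) (by omega) zero_le_one
    rw [pow_zero, div_one] at this
    linarith
  · -- cN
    obtain ⟨Fs, k1, k2⟩ := f_cN h hB
    rw [← hK] at k1
    exact ⟨Fs, k1, k2⟩
  · -- f1
    have k1 := CH_snd hp (slam F wx)
      (fun ω => ⌊(2 : ℝ) ^ n * (2 ^ (wx + q) * F.x ω (ς 0))⌋)
      (lxl F ς wx wy q (D + n) (wx + q + D + n) P κ pl a)
    rw [hm]
    show _ ≤ CH _ (fun w : F.Ω × F.Ω => ⌊(2 : ℝ) ^ n * (2 ^ (wx + q) * F.x w.2 (ς 0))⌋)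
      (fun w => lxl F ς wx wy q (D + n) (wx + q + D + n) P κ pl a w.2)
    rw [k1]
    have e : (fun ω => ⌊(2 : ℝ) ^ n * (2 ^ (wx + q) * F.x ω (ς 0))⌋) =
        fun ω => ⌊(2 : ℝ) ^ (wx + q + n) * F.x ω (ς 0)⌋ := by
      funext ω
      rw [← mul_assoc, ← pow_add]
      congr 3
      omega
    rw [e]
    linarith
  · -- f2
    have k1 := CH_ci_le hp (slam F wx) F.T
      (fun ω => (lxl F ς wx wy q (D + n) (wx + q + D + n) P κ pl a ω, slam F wx ω))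
      (fun w => (lxl F ς wx wy q (D + n) (wx + q + D + n) P κ pl a w.2, slam F wx w.2))
      (fun _ _ _ _ e => (Prod.ext_iff.mp e).2)
    have k2 : CH (dbl (Pool.Agent.H49.Ent.cond F.p B True) (slam F wx)) (fun w => F.T w.1)
        (fun w => (lxl F ς wx wy q (D + n) (wx + q + D + n) P κ pl a w.2, slam F wx w.2)) ≤
        CH (dbl (Pool.Agent.H49.Ent.cond F.p B True) (slam F wx)) (fun w => (F.T w.1 : ℤ))
        (fun w => (lxl F ς wx wy q (D + n) (wx + q + D + n) P κ pl a w.2, slam F wx w.2)) := by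
      refine CH_mono_left (Pool.S6U.dbl_law hp _).nonneg ?_
      intro w w' _ _ e
      have e1 : (F.T w.1 : ℤ) = (F.T w'.1 : ℤ) := (Prod.ext_iff.mp e).1
      exact_mod_cast e1
    rw [hM]
    linarith
  · -- f3
    have k1 := CH_fst hp (slam F wx)
      (fun ω => ⌊(2 : ℝ) ^ n * (2 ^ (wx + q) * F.x ω (ς 0))⌋)
      (fun ω => (cf F ς wx q D P κ pl al ω, zf F ς wx wy q D n al ω))
    rw [hm]
    show _ ≤ CH _ (fun w : F.Ω × F.Ω => ⌊(2 : ℝ) ^ n * (2 ^ (wx + q) * F.x w.1 (ς 0))⌋)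
      (fun w => (cf F ς wx q D P κ pl al w.1, zf F ς wx wy q D n al w.1))
    rw [k1]
    have e : (fun ω => ⌊(2 : ℝ) ^ n * (2 ^ (wx + q) * F.x ω (ς 0))⌋) =
        fun ω => ⌊(2 : ℝ) ^ (wx + q + n) * F.x ω (ς 0)⌋ := by
      funext ω
      rw [← mul_assoc, ← pow_add]
      congr 3
      omega
    rw [e]
    have k2 := f_3 h hB (fun ω => ⌊(2 : ℝ) ^ (wx + q + n) * F.x ω (ς 0)⌋)
    linarith

end inst

/-- **(LXB)** from LEMMA X. -/
theorem lxb_of (hX : Pool.LX.XStmt) : LxBStmt := by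
  intro C hC
  obtain ⟨K₀, hK₀⟩ : ∃ K₀ : ℝ, K₀ = ((2 * nC C + 1 : ℕ) : ℝ) ^ 4 := ⟨_, rfl⟩
  have hK1 : 1 ≤ K₀ := by
    rw [hK₀]
    refine one_le_pow₀ ?_
    push_cast
    have : (0 : ℝ) ≤ nC C := Nat.cast_nonneg _
    linarith
  obtain ⟨C₁, hC₁, hx⟩ := hX K₀ hK1
  have hlog : 0 ≤ Real.log (2 * nC C + 1) := by
    refine Real.log_nonneg ?_
    have : (0 : ℝ) ≤ nC C := Nat.cast_nonneg _
    linarith
  obtain ⟨c₀, hc₀⟩ : ∃ c₀ : ℕ, C ≤ 2 ^ c₀ := by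
    obtain ⟨m, hm⟩ := exists_nat_gt C
    exact ⟨m, hm.le.trans (by exact_mod_cast (Nat.lt_two_pow_self (n := m)).le)⟩
  obtain ⟨l, hl⟩ : ∃ l, l = 6 * Real.log (2 * nC C + 1) := ⟨_, rfl⟩
  have hl0 : 0 ≤ l := by rw [hl]; positivity
  have hlog2 : 0 < Real.log 2 := Real.log_pos one_lt_two
  obtain ⟨K, hK⟩ : ∃ K, K = C₁ * (1 + l) + C₁ + 1 + c₀ + Real.log 2 := ⟨_, rfl⟩
  have hc0' : (0 : ℝ) ≤ c₀ := Nat.cast_nonneg _
  have hK1' : C₁ * (1 + l) ≤ K := by rw [hK]; linarith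
  have hK2 : C₁ + Real.log 2 ≤ K := by
    have : 0 ≤ C₁ * (1 + l) := by positivity
    rw [hK]
    linarith
  have hK3 : (c₀ : ℝ) + 1 ≤ K := by
    have : 0 ≤ C₁ * (1 + l) := by positivity
    rw [hK]
    linarith
  refine ⟨K, by linarith, ?_⟩
  intro J F B ς w₀ wx wy q D n P g Λ κ pl al a d ε₀ s hB h hd hs hε hgn h1 h2 h3
  have hp := isLaw_cond F.isLaw hB
  have hgn' : g + 1 + c₀ ≤ n := by
    have : ((g + 1 + c₀ : ℕ) : ℝ) ≤ n := by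
      push_cast
      linarith
    exact_mod_cast this
  have hg : C / 2 ^ n ≤ 1 / 2 ^ (g + 1) := by
    have e1 : C / (2 : ℝ) ^ n ≤ C / 2 ^ (g + 1 + c₀) := inv_le hgn' (by linarith)
    refine e1.trans ?_
    rw [pow_add, div_le_div_iff₀ (by positivity) (by positivity)]
    have : (0 : ℝ) < 2 ^ (g + 1) := by positivity
    nlinarith
  have hxd := xd h hB hg h1 h2 h3
  rw [← hK₀, ← hl] at hxd
  have hs0 : 0 < s := by linarith
  have k1 : C₁ * (d + l + 1) / s ≤ K * (d + 1) / s := by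
    refine div_le_div_of_nonneg_right ?_ hs0.le
    have e1 : d + l + 1 ≤ (1 + l) * (d + 1) := by nlinarith
    calc C₁ * (d + l + 1) ≤ C₁ * ((1 + l) * (d + 1)) := mul_le_mul_of_nonneg_left e1 hC₁.le
      _ = C₁ * (1 + l) * (d + 1) := by ring
      _ ≤ K * (d + 1) := mul_le_mul_of_nonneg_right hK1' (by linarith)
  have key := hx _ _ _ _ _ _ _ _ _ _ _ _ _ _ _ _ _ _ _ _ _ _ _ s hxd (by linarith) hs
    (by linarith)
  have hm : ((wy - wx : ℕ) : ℝ) = wy - wx := by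
    rw [Nat.cast_sub h.xy]
  rw [hm] at key
  have e1 : Real.log (1 / (1 / 2 ^ (g + 1))) = ((g : ℝ) + 1) * Real.log 2 := by
    rw [one_div_one_div, Real.log_pow]
    push_cast
    ring
  rw [e1] at key
  have k2 := CH_fst hp (slam F wx)
    (fun ω => (⌊(2 : ℝ) ^ n * (2 ^ (wx + q) * F.x ω (ς 0))⌋,
      ⌊(2 : ℝ) ^ n * (2 ^ (wx + q + D) * fu (ς 0) (ς 1) (ald D al ω) (F.x ω))⌋))
    (cf F ς wx q D P κ pl al)
  have k3 : CH (Pool.Agent.H49.Ent.cond F.p B True)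
      (fun ω => (⌊(2 : ℝ) ^ n * (2 ^ (wx + q) * F.x ω (ς 0))⌋,
        ⌊(2 : ℝ) ^ n * (2 ^ (wx + q + D) * fu (ς 0) (ς 1) (ald D al ω) (F.x ω))⌋))
      (cf F ς wx q D P κ pl al) ≤
      CH (Pool.Agent.H49.Ent.cond F.p B True)
        (F.sbx ς (wx + q + n) (wx + q + D + n) P (ald D al) (fun ω => -(pl (κ ω)).s)
          (fun ω => -(pl (κ ω)).c)) (cf F ς wx q D P κ pl al) := by
    refine CH_mono_left hp.nonneg ?_
    intro ω ω' _ _ e
    have h6 : F.sbx ς (wx + q + n) (wx + q + D + n) P (ald D al) (fun ω => -(pl (κ ω)).s)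
      (fun ω => -(pl (κ ω)).c) ω = F.sbx ς (wx + q + n) (wx + q + D + n) P (ald D al)
      (fun ω => -(pl (κ ω)).s) (fun ω => -(pl (κ ω)).c) ω' := (Prod.ext_iff.mp e).1
    obtain ⟨-, b2, b3, -⟩ := (sbx_ext).1 h6
    rw [co0, co0] at b2
    rw [co1, co1] at b3
    have e3 : ∀ x : ℝ, (2 : ℝ) ^ n * (2 ^ (wx + q) * x) = 2 ^ (wx + q + n) * x := by
      intro x
      rw [pow_add 2 (wx + q) n]
      ring
    have e4 : ∀ x : ℝ, (2 : ℝ) ^ n * (2 ^ (wx + q + D) * x) = 2 ^ (wx + q + D + n) * x := by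
      intro x
      rw [pow_add 2 (wx + q + D) n]
      ring
    refine Prod.ext ?_ ?_
    · show ⌊(2 : ℝ) ^ n * (2 ^ (wx + q) * F.x ω (ς 0))⌋ =
        ⌊(2 : ℝ) ^ n * (2 ^ (wx + q) * F.x ω' (ς 0))⌋
      rw [e3, e3]
      exact b2
    · show ⌊(2 : ℝ) ^ n * (2 ^ (wx + q + D) * fu (ς 0) (ς 1) (ald D al ω) (F.x ω))⌋ =
        ⌊(2 : ℝ) ^ n * (2 ^ (wx + q + D) * fu (ς 0) (ς 1) (ald D al ω') (F.x ω'))⌋
      rw [e4, e4]
      exact b3
  have k4 : 4 * (ε₀ + C₁ * (d + l + 1) / s) * n ≤ 4 * (ε₀ + K * (d + 1) / s) * n := by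
    have : (0 : ℝ) ≤ n := Nat.cast_nonneg n
    have := mul_le_mul_of_nonneg_right k1 this
    linarith
  have k5 : CH (dbl (Pool.Agent.H49.Ent.cond F.p B True) (slam F wx))
      (fun w => (⌊(2 : ℝ) ^ n * (2 ^ (wx + q) * F.x w.1 (ς 0))⌋,
        ⌊(2 : ℝ) ^ n * (2 ^ (wx + q + D) * fu (ς 0) (ς 1) (ald D al w.1) (F.x w.1))⌋))
      (fun w => cf F ς wx q D P κ pl al w.1) ≤
      CH (Pool.Agent.H49.Ent.cond F.p B True)
        (F.sbx ς (wx + q + n) (wx + q + D + n) P (ald D al) (fun ω => -(pl (κ ω)).s)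
          (fun ω => -(pl (κ ω)).c)) (cf F ς wx q D P κ pl al) := by
    rw [k2]
    exact k3
  refine le_trans ?_ (key.trans k5)
  linarith

end LxP

end Pool.S6V
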