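import Pool.Agent.H77.S6C.UV2

/-!
# LEMMA X, the class half: data and statements

`wx ≤ wy` are two windows, `q` the base velocity, `D` the number of digits of the own slope in the
natural box of `wx`, `D + n` the number of digits of the own slope in the label of the windows `wy`,
`P` the row. `a` is the slope of the label of the windows `wy`.
-/

set_option autoImplicit false

namespace Pool.S6V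

open Finset Real
open Pool.Agent.H49.Ent Pool.Agent.H32.Dense Pool.STK Pool.KA Pool.KSAT Pool.K2S Pool.PB Pool.KS6
  Pool.S6C Pool.S6U

/-- **The label of the windows `wy`**: slope `a`; positions at the beginning of the window, first
coordinate to `q + wy` digits, second coordinate to `U'` digits, third coordinate to `P` digits;
velocities to `q`, `E + q` and `P - wx` digits; the exact time. -/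
noncomputable def lxl {J : ℕ} (F : Fam 3 J) (ς : Fin 3 → Fin 3) (wx wy q E U' P : ℕ) {Λ : Type}
    (κ : F.Ω → Λ) (pl : Λ → Pln) (a : F.Ω → ℝ) (ω : F.Ω) :=
  (F.T ω, ((⌊(2 : ℝ) ^ (q + wy) * F.x1 wy ω (ς 0)⌋, ⌊(2 : ℝ) ^ q * F.d ω (ς 0)⌋),
    (((κ ω, a ω), ((⌊(2 : ℝ) ^ U' * fu (ς 0) (ς 1) (a ω) (F.x1 wy ω)⌋,
        ⌊(2 : ℝ) ^ P * fn (ς 0) (ς 1) (ς 2) (pl (κ ω)).c (pl (κ ω)).s (F.x1 wy ω)⌋),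
      (⌊(2 : ℝ) ^ (E + q) * fu (ς 0) (ς 1) (a ω) (F.d ω)⌋,
        ⌊(2 : ℝ) ^ (P - wx) * fn (ς 0) (ς 1) (ς 2) (pl (κ ω)).c (pl (κ ω)).s (F.d ω)⌋))),
      F.Z ω)))

/-- **The data for one family.** -/
structure LxD {J : ℕ} (F : Fam 3 J) (B : F.Ω → Prop) (ς : Fin 3 → Fin 3)
    (w₀ wx wy q D n P : ℕ) (C : ℝ) {Λ : Type} (κ : F.Ω → Λ) (pl : Λ → Pln) (al a : F.Ω → ℝ) :
    Prop where
  inj : Function.Injective ς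
  C1 : 1 ≤ C
  w0x : w₀ ≤ wx
  xy : wx ≤ wy
  mn : wy ≤ wx + n
  lev : wx + q + D + n ≤ P
  PJ : P ≤ J
  kpt : ∃ φ : (Fin 3 → ℤ) × (ℕ × F.ζ) → Λ, ∀ ω, B ω → κ ω = φ (Fam.pt F ω)
  ksl : ∃ ψ : ((Fin 3 → ℝ) × (Fin 3 → ℝ)) × F.ζ × ℕ → Λ, ∀ ω, B ω → κ ω = ψ (slam F w₀ ω)
  apt : ∃ φ : (Fin 3 → ℤ) × (ℕ × F.ζ) → ℝ, ∀ ω, B ω → al ω = φ (Fam.pt F ω)
  bal : ∀ ω, B ω → |al ω| ≤ C
  bpl : ∀ ω, B ω → |(pl (κ ω)).s| ≤ C ∧ |(pl (κ ω)).c| ≤ C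
  on1 : ∃ nu : (Fin 3 → ℤ) × (ℕ × F.ζ) → ℝ, ∀ ω, B ω →
    |F.d ω (ς 1) - al ω * F.d ω (ς 0) - nu (Fam.pt F ω)| ≤ C / 2 ^ (D + n + q)
  on2 : ∃ b k : (Fin 3 → ℤ) × (ℕ × F.ζ) → ℝ, ∀ ω, B ω →
    |fn (ς 0) (ς 1) (ς 2) (pl (κ ω)).c (pl (κ ω)).s (F.d ω) - b (Fam.pt F ω) -
      k (Fam.pt F ω) * F.d ω (ς 0)| ≤ C / 2 ^ (P - wx) ∧ |k (Fam.pt F ω)| ≤ C / 2 ^ (P - wx - q)
  grid : ∀ ω, ∃ z : ℤ, a ω = z / 2 ^ (D + n)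
  asl : ∃ ζ : ((Fin 3 → ℝ) × (Fin 3 → ℝ)) × F.ζ × ℕ → ℝ, ∀ ω, a ω = ζ (slam F wy ω)
  near : ∀ ω, B ω → |al ω - a ω| ≤ C / 2 ^ (D + n)
  ax : ∃ ζ : ((Fin 3 → ℝ) × (Fin 3 → ℝ)) × F.ζ × ℕ → ℝ, ∀ ω, B ω →
    |al ω - ζ (slam F wx ω)| ≤ C / 2 ^ D

/-- **(LXE)** The rows of the first coordinate are full given the label. -/
def LxEStmt : Prop :=
  ∀ (S : PCl 3) (a₁ R h₁ : ℝ) (i₀ : Fin 3) (c s₂ : ℝ) (r : ℝ → ℝ) (D₀ : Set ℝ) (σ : ℝ → Row),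
    Cs S a₁ R h₁ i₀ c s₂ r D₀ σ → ∀ (act : ℚ → ℝ) (κ₀ : ℝ), ActD S i₀ act κ₀ →
    ∀ q a₀ α : ℝ, AcP act q a₀ α → ∀ η C : ℝ, 0 < η → 1 ≤ C →
    Clp S (fun J F A => ∀ B : F.Ω → Prop, Sub B A → 1 / 2 * Pe F.p A ≤ Pe F.p B →
      ∀ ς : Fin 3 → Fin 3, ς 0 = i₀ → ∀ (w₀ wx wy D n P : ℕ)
      (Λ : Type) (κ : F.Ω → Λ) (pl : Λ → Pln) (al a : F.Ω → ℝ),
      LxD F B ς w₀ wx wy ⌊q * J⌋₊ D n P C κ pl al a →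
      ∀ r' : ℕ, wy + ⌊q * J⌋₊ ≤ r' → r' ≤ J →
      ((r' : ℝ) - (wy + ⌊q * J⌋₊ : ℕ)) * Real.log 2 - η * J ≤
        CH (Pool.Agent.H49.Ent.cond F.p B True) (fun ω => ⌊(2 : ℝ) ^ r' * F.x ω (ς 0)⌋)
          (lxl F ς wx wy ⌊q * J⌋₊ (D + n) (wx + ⌊q * J⌋₊ + D + n) P κ pl a))

/-- **(LXT)** The own slopes of two times of one window `x` are not close. -/
def LxTStmt : Prop :=
  ∀ (S : PCl 3) (a₁ R h₁ : ℝ) (i₀ : Fin 3) (c s₂ : ℝ) (r : ℝ → ℝ) (D₀ : Set ℝ) (σ : ℝ → Row),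
    Cs S a₁ R h₁ i₀ c s₂ r D₀ σ → ∀ x : ℚ, 0 ≤ x → x ≤ 1 → ∀ h ε C : ℝ, 0 < h → 0 < ε → 1 ≤ C →
    (σ 1).rot x + h ≤ 1 →
    Clp S (fun J F A => ∀ B : F.Ω → Prop, Sub B A → 1 / 2 * Pe F.p A ≤ Pe F.p B →
      ∀ ς : Fin 3 → Fin 3, Function.Injective ς → ς 0 = i₀ → ∀ (w₀ Hu HN K D : ℕ)
      (Λ : Type) (κ : F.Ω → Λ) (pl : Λ → Pln) (al : F.Ω → ℝ),
      w₀ ≤ ⌊(x : ℝ) * J⌋₊ →
      (∃ φ : (Fin 3 → ℤ) × (ℕ × F.ζ) → Λ, ∀ ω, B ω → κ ω = φ (Fam.pt F ω)) →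
      (∃ ψ : ((Fin 3 → ℝ) × (Fin 3 → ℝ)) × F.ζ × ℕ → Λ, ∀ ω, B ω → κ ω = ψ (slam F w₀ ω)) →
      (∃ φ : (Fin 3 → ℤ) × (ℕ × F.ζ) → ℝ, ∀ ω, B ω → al ω = φ (Fam.pt F ω)) →
      (∀ ω, B ω → |al ω| ≤ C) →
      (∀ ω, B ω → |(pl (κ ω)).s| ≤ C ∧ |(pl (κ ω)).c| ≤ C) →
      (∃ nu : (Fin 3 → ℤ) × (ℕ × F.ζ) → ℝ, ∀ ω, B ω →
        |F.d ω (ς 1) - al ω * F.d ω (ς 0) - nu (Fam.pt F ω)| ≤ C / 2 ^ Hu) →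
      (∃ b k : (Fin 3 → ℤ) × (ℕ × F.ζ) → ℝ, ∀ ω, B ω →
        |fn (ς 0) (ς 1) (ς 2) (pl (κ ω)).c (pl (κ ω)).s (F.d ω) - b (Fam.pt F ω) -
          k (Fam.pt F ω) * F.d ω (ς 0)| ≤ C / 2 ^ HN ∧ |k (Fam.pt F ω)| ≤ C / 2 ^ K) →
      ((σ 1).rot x + 2 * h) * J ≤ Hu → ((σ 1).rot x + 2 * h) * J ≤ HN →
      ((σ 1).rot x + 2 * h) * J ≤ K → ((σ 1).rot x + 2 * h) * J ≤ D →
      Pool.KAF.Pr (dbl (Pool.Agent.H49.Ent.cond F.p B True) (slam F ⌊(x : ℝ) * J⌋₊))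
        {v | |al v.1 - al v.2| ≤ 1 / 2 ^ D} ≤ ε)

/-- **(LXF)** The own slopes are known from the windows `x` and `y` on most of the event. -/
def LxFStmt : Prop :=
  ∀ (S : PCl 3) (a₁ R h₁ : ℝ) (i₀ : Fin 3) (c s₂ : ℝ) (r : ℝ → ℝ) (D₀ : Set ℝ) (σ : ℝ → Row),
    Cs S a₁ R h₁ i₀ c s₂ r D₀ σ → ∀ x y : ℚ, 0 ≤ x → x ≤ 1 → 0 ≤ y → y ≤ 1 →
    ∀ ε ϖ C : ℝ, 0 < ε → 0 < ϖ → 1 ≤ C →
    Clp S (fun J F A => ∀ ς : Fin 3 → Fin 3, Function.Injective ς → ς 0 = i₀ →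
      ∀ (al : F.Ω → ℝ) (L : ℕ),
      (∃ φ : (Fin 3 → ℤ) × (ℕ × F.ζ) → ℝ, ∀ ω, A ω → al ω = φ (Fam.pt F ω)) →
      (∃ nu : (Fin 3 → ℤ) × (ℕ × F.ζ) → ℝ, ∀ ω, A ω →
        |F.d ω (ς 1) - al ω * F.d ω (ς 0) - nu (Fam.pt F ω)| ≤ C / 2 ^ L) →
      ∃ B : F.Ω → Prop, Sub B A ∧ (1 - ϖ) * Pe F.p A ≤ Pe F.p B ∧
        ∀ w : ℚ, w = x ∨ w = y → ∀ E : ℕ, (E : ℝ) + ε * J ≤ L →
          (E : ℝ) + ε * J ≤ (σ 1).rot w * J →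
          ∃ ζ : ((Fin 3 → ℝ) × (Fin 3 → ℝ)) × F.ζ × ℕ → ℝ, ∀ ω, B ω →
            |al ω - ζ (slam F ⌊(w : ℝ) * J⌋₊ ω)| ≤ 1 / 2 ^ E)

/-- **(LXB)** One family: the block of `n` digits of both plank coordinates beyond the natural box
of the window `wx` is full, up to three times the length `wy - wx`. -/
def LxBStmt : Prop :=
  ∀ C : ℝ, 1 ≤ C → ∃ K : ℝ, 0 < K ∧ ∀ (J : ℕ) (F : Fam 3 J) (B : F.Ω → Prop)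
    (ς : Fin 3 → Fin 3) (w₀ wx wy q D n P g : ℕ) (Λ : Type) (κ : F.Ω → Λ) (pl : Λ → Pln)
    (al a : F.Ω → ℝ) (d ε₀ s : ℝ),
    0 < Pe F.p B → LxD F B ς w₀ wx wy q D n P C κ pl al a → 0 ≤ d → 1 ≤ s →
    ε₀ + K * (d + 1) / s ≤ 1 / 2 → (g : ℝ) + K ≤ n →
    ((n : ℝ) - (wy - wx)) * Real.log 2 - d ≤ CH (Pool.Agent.H49.Ent.cond F.p B True)
      (fun ω => ⌊(2 : ℝ) ^ (wx + q + n) * F.x ω (ς 0)⌋)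
      (lxl F ς wx wy q (D + n) (wx + q + D + n) P κ pl a) →
    ((J : ℝ) - wx) * Real.log 2 - d ≤
      CH (Pool.Agent.H49.Ent.cond F.p B True) F.T (slam F wx) →
    Pool.KAF.Pr (dbl (Pool.Agent.H49.Ent.cond F.p B True) (slam F wx))
      {v | |al v.1 - al v.2| ≤ 1 / 2 ^ (D + g)} ≤ ε₀ →
    (2 * (n : ℝ) - 3 * (wy - wx)) * Real.log 2 - (4 * (ε₀ + K * (d + 1) / s) * n + 8 * s +
      2 * Real.log (n + 1) + g * Real.log 2 + K) ≤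
      CH (Pool.Agent.H49.Ent.cond F.p B True)
        (F.sbx ς (wx + q + n) (wx + q + D + n) P (ald D al) (fun ω => -(pl (κ ω)).s)
          (fun ω => -(pl (κ ω)).c))
        (fun ω => (F.sbx ς (wx + q) (wx + q + D) P (ald D al) (fun ω => -(pl (κ ω)).s)
          (fun ω => -(pl (κ ω)).c) ω, (Uni.dg D al ω, (κ ω, F.W ω))))

end Pool.S6V
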