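import Pool.Agent.H24.S6D.Path

/-!
# One rectangle of the U-step: rounded directions, error terms
-/

set_option autoImplicit false

namespace Pool.S6D

open Finset Real
open Pool.Agent.H49.Ent Pool.Agent.H32.Dense Pool.STK Pool.KA Pool.K2S Pool.KA.Vd

/-- A sum over a residue range is at most the sum over the rectangle. -/
theorem sum_conv (f : ℕ → ℕ → ℝ) (hf : ∀ w q, 0 ≤ f w q) {wa wb h qa ql : ℕ} (hw : wa ≤ wb) :
    ∑ q ∈ Finset.range ql, ∑ w ∈ Finset.range ((wb - wa) / h * h), f (wa + w) (qa + q) ≤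
      ∑ x ∈ Finset.Icc wa wb ×ˢ Finset.Ico qa (qa + ql), f x.1 x.2 := by
  rw [Finset.sum_comm, Finset.sum_product]
  have e1 : ∀ w, ∑ q ∈ Finset.range ql, f (wa + w) (qa + q) =
      ∑ q ∈ Finset.Ico qa (qa + ql), f (wa + w) q := by
    intro w
    rw [Finset.sum_Ico_eq_sum_range, Nat.add_sub_cancel_left]
  rw [Finset.sum_congr rfl fun w _ => e1 w]
  have e2 : ∑ w ∈ Finset.range ((wb - wa) / h * h),
      ∑ q ∈ Finset.Ico qa (qa + ql), f (wa + w) q =
      ∑ w ∈ Finset.Ico wa (wa + (wb - wa) / h * h),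
        ∑ q ∈ Finset.Ico qa (qa + ql), f w q := by
    rw [Finset.sum_Ico_eq_sum_range, Nat.add_sub_cancel_left]
  rw [e2]
  refine Finset.sum_le_sum_of_subset_of_nonneg ?_ fun w _ _ =>
    Finset.sum_nonneg fun q _ => hf w q
  intro w hw'
  rw [Finset.mem_Ico] at hw'
  rw [Finset.mem_Icc]
  have := Nat.div_mul_le_self (wb - wa) h
  omega

/-- The rounded direction. -/
noncomputable def rnd {Ω : Type} (D : ℕ) (al : Ω → ℝ) (ω : Ω) : ℝ :=
  (⌊(2 : ℝ) ^ D * al ω⌋ : ℝ) / 2 ^ D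

section rnd

variable {Ω : Type} {p : Ω → ℝ} {al : Ω → ℝ}

theorem rnd_near (D : ℕ) (ω : Ω) : |rnd D al ω - al ω| ≤ 1 / 2 ^ D := by
  have h1 := Int.floor_le ((2 : ℝ) ^ D * al ω)
  have h2 := Int.lt_floor_add_one ((2 : ℝ) ^ D * al ω)
  have e : rnd D al ω - al ω = ((⌊(2 : ℝ) ^ D * al ω⌋ : ℝ) - 2 ^ D * al ω) / 2 ^ D := by
    unfold rnd
    field_simp
  rw [e, abs_div, abs_of_pos (by positivity : (0 : ℝ) < 2 ^ D)]
  refine div_le_div_of_nonneg_right ?_ (by positivity)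
  rw [abs_le]
  constructor <;> linarith

theorem rnd_det {D D' : ℕ} (h : D ≤ D') : Det p (rnd D' al) (rnd D al) := by
  intro ω ω' _ _ e
  have e1 : (⌊(2 : ℝ) ^ D' * al ω⌋ : ℝ) = ⌊(2 : ℝ) ^ D' * al ω'⌋ := by
    unfold rnd at e
    have h2 : (2 : ℝ) ^ D' ≠ 0 := by positivity
    field_simp at e
    exact e
  have e2 : ⌊(2 : ℝ) ^ D' * al ω⌋ = ⌊(2 : ℝ) ^ D' * al ω'⌋ := by exact_mod_cast e1
  have e3 := fl_lift h e2
  unfold rnd
  rw [e3]

theorem pw_anti {x y : ℕ} (h : x ≤ y) {c : ℝ} (hc : 0 ≤ c) : c / (2 : ℝ) ^ y ≤ c / 2 ^ x :=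
  div_le_div_of_nonneg_left hc (by positivity) (pow_le_pow_right₀ (by norm_num) h)

theorem rnd_two {D D' v : ℕ} (h : v ≤ D) (h' : v ≤ D') (ω : Ω) :
    |rnd D al ω - rnd D' al ω| ≤ 2 / 2 ^ v := by
  have h1 := rnd_near (al := al) D ω
  have h2 := rnd_near (al := al) D' ω
  have h3 := pw_anti h (zero_le_one (α := ℝ))
  have h4 := pw_anti h' (zero_le_one (α := ℝ))
  have e : (2 : ℝ) / 2 ^ v = 1 / 2 ^ v + 1 / 2 ^ v := by ring
  rw [e]
  rw [abs_le] at h1 h2 ⊢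
  constructor <;> linarith [h1.1, h1.2, h2.1, h2.2]

/-- The entropy of the rounded direction, given a label of precision `v`. -/
theorem CH_rnd [Fintype Ω] (hp : IsLaw p) {T : Type} {W : Ω → T} {a : Ω → ℝ} {C : ℝ} (hC : 1 ≤ C) {v x : ℕ}
    (hW : Det p W a) (hn : ∀ ω, 0 < p ω → |al ω - a ω| ≤ C / 2 ^ v) :
    CH p (rnd (v + x) al) W ≤ x * Real.log 2 + Real.log (4 * C + 5) := by
  have h0 := hp.nonneg
  have h2x : (1 : ℝ) ≤ 2 ^ x := one_le_pow₀ (by norm_num)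
  have k1 : CH p (rnd (v + x) al) W ≤
      CH p (fun ω (_ : Fin 1) => ⌊(2 : ℝ) ^ (v + x) * al ω⌋) W := by
    refine CH_mono_left h0 ?_
    intro ω ω' _ _ e
    have e1 := congrFun (Prod.ext_iff.mp e).1 0
    unfold rnd
    simp only at e1
    rw [e1]
  have k2 := Plk.CH_vec_const (m := 1) hp (fun ω _ => ⌊(2 : ℝ) ^ (v + x) * al ω⌋) W
    (c := 2 * (C * 2 ^ x) + 1)
    (fun ω ω' g1 g2 g3 _ => by
      have a1 := hn ω g1
      have a2 := hn ω' g2
      have a3 := hW ω ω' g1 g2 g3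
      rw [← a3] at a2
      have a4 : |al ω - al ω'| ≤ 2 * C / 2 ^ v := by
        have e : 2 * C / (2 : ℝ) ^ v = C / 2 ^ v + C / 2 ^ v := by ring
        rw [e]
        rw [abs_le] at a1 a2 ⊢
        constructor <;> linarith [a1.1, a1.2, a2.1, a2.2]
      have a5 : |(2 : ℝ) ^ (v + x) * al ω - 2 ^ (v + x) * al ω'| ≤ 2 * (C * 2 ^ x) := by
        rw [← mul_sub, abs_mul, abs_of_pos (by positivity : (0 : ℝ) < 2 ^ (v + x)), pow_add]
        calc (2 : ℝ) ^ v * 2 ^ x * |al ω - al ω'| ≤ 2 ^ v * 2 ^ x * (2 * C / 2 ^ v) :=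
              mul_le_mul_of_nonneg_left a4 (by positivity)
          _ = 2 * (C * 2 ^ x) := by field_simp
      have b1 := Int.floor_le ((2 : ℝ) ^ (v + x) * al ω)
      have b2 := Int.lt_floor_add_one ((2 : ℝ) ^ (v + x) * al ω)
      have b3 := Int.floor_le ((2 : ℝ) ^ (v + x) * al ω')
      have b4 := Int.lt_floor_add_one ((2 : ℝ) ^ (v + x) * al ω')
      push_cast
      rw [abs_le] at a5 ⊢
      constructor <;> linarith [a5.1, a5.2])
  refine k1.trans (k2.trans ?_)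
  have e1 : (x : ℝ) * Real.log 2 + Real.log (4 * C + 5) = Real.log (2 ^ x * (4 * C + 5)) := by
    rw [Real.log_mul (by positivity) (by positivity), Real.log_pow]
  rw [e1]
  have e2 : ((1 : ℕ) : ℝ) * Real.log (2 * (2 * (C * 2 ^ x) + 1) + 1) =
      Real.log (2 * (2 * (C * 2 ^ x) + 1) + 1) := by
    push_cast
    ring
  rw [e2]
  refine Real.log_le_log (by positivity) ?_
  nlinarith

end rnd

variable {J : ℕ} {F : Fam 3 J} {p : F.Ω → ℝ} {σ : Fin 3 → Fin 3} {s t : F.Ω → ℝ}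
  {τ τ' : Type}

/-- **One rectangle, with the U-step as hypothesis.** The windows `W 0 ≤ .. ≤ W n`; the direction
`al` of the exact point is rounded at `vp (W (i + 1)) + x` digits in the piece number `i`. -/
theorem rect_zone (hp : IsLaw p) {B C e Ch : ℝ} (hB : 1 ≤ B) (hC : 1 ≤ C) (he : 0 ≤ e)
    {a₁ a₂ al : F.Ω → ℝ} {h X x qa ql N n : ℕ} {vp : ℕ → ℕ} {W : ℕ → ℕ}
    (hb : ∀ ω, 0 < p ω → |al ω| + 1 ≤ B ∧ |a₂ ω| ≤ B ∧ |s ω| ≤ B ∧ |t ω| ≤ B)
    (hh : 1 ≤ h) (hql : 1 ≤ ql) (hCh : (X : ℝ) ≤ Ch * h) (hW : ∀ i < n, W i ≤ W (i + 1))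
    (mono : ∀ w w', W 0 ≤ w → w ≤ w' → w' ≤ W n → vp w ≤ vp w')
    (inc : ∀ w w', W 0 ≤ w → w ≤ w' → w' ≤ w + h → w' ≤ W n → w' + vp w' ≤ w + vp w + X)
    (hN : W n + vp (W n) + (qa + ql) ≤ N)
    (n1 : ∀ ω, 0 < p ω → |a₁ ω - al ω| ≤ C / 2 ^ vp (W 0))
    (n2 : ∀ ω, 0 < p ω → |al ω - a₂ ω| ≤ C / 2 ^ vp (W n))
    (Θ : F.Ω → τ) (Θ' : F.Ω → τ') (hΘ : Det p Θ' Θ) (f1 : Fd p Θ a₁ s t) (f2 : Fd p Θ' a₂ s t)
    (hS : ∀ i < n, ∑ y ∈ Finset.Icc (W i) (W (i + 1)) ×ˢ Finset.Ico qa (qa + ql),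
      dfc F p σ X (y.1 + y.2) (y.1 + vp y.1 + y.2) N (rnd (vp (W (i + 1)) + x) al) s t
        (fun ω => (rnd (vp (W (i + 1)) + x) al ω, Θ ω)) ≤
      e * X * ((W (i + 1) + 1 - W i : ℕ) * (ql : ℕ))) :
    F.vdf p σ (W 0 + qa) (W 0 + vp (W 0) + qa) N a₁ s t Θ ≤
      F.vdf p σ (W n + qa) (W n + vp (W n) + qa) N a₂ s t Θ' +
        (e * Ch * (W n - W 0 + n) + (2 * ql + 6 * n * X + x) * Real.log 2 +
          ((W n - W 0 : ℝ) / h + 2 * n + 1) * K1 B +
          (n + 2) * (K1 B + (3 : ℕ) * Real.log (6 * (C + 2) + 3)) + Real.log (4 * C + 5)) := by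
  have hu0 : 0 < Real.log 2 := Real.log_pos (by norm_num)
  have hhr : (0 : ℝ) < h := by exact_mod_cast hh
  have hqr : (0 : ℝ) < ql := by exact_mod_cast hql
  have hW0 : ∀ i j, i ≤ j → j ≤ n → W i ≤ W j := by
    intro i j
    induction j with
    | zero => intro h1 _; rw [Nat.le_zero.1 h1]
    | succ j ih =>
      intro h1 h2
      rcases Nat.lt_or_ge i (j + 1) with h3 | h3
      · exact (ih (by omega) (by omega)).trans (hW j (by omega))
      · rw [show i = j + 1 by omega]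
  have vle : ∀ i j, i ≤ j → j ≤ n → vp (W i) ≤ vp (W j) := fun i j h1 h2 =>
    mono (W i) (W j) (hW0 0 i (by omega) (by omega)) (hW0 i j h1 h2) (hW0 j n h2 le_rfl)
  -- the rounded directions
  obtain ⟨Dr, hDr⟩ : ∃ Dr : ℕ → ℕ, Dr = fun i => vp (W (min (i + 1) n)) + x := ⟨_, rfl⟩
  have hDi : ∀ i < n, Dr i = vp (W (i + 1)) + x := by
    intro i hi
    rw [hDr]
    simp only
    rw [min_eq_left (by omega)]
  have hDn : Dr n = vp (W n) + x := by
    rw [hDr]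
    simp only
    rw [min_eq_right (by omega)]
  have hDmono : ∀ i < n, Dr i ≤ Dr (i + 1) := by
    intro i hi
    rw [hDr]
    simp only
    have := vle (min (i + 1) n) (min (i + 1 + 1) n) (by omega) (by omega)
    omega
  have hD0 : vp (W 0) ≤ Dr 0 := by
    rw [hDr]
    simp only
    have := vle 0 (min (0 + 1) n) (by omega) (by omega)
    omega
  have hDnn : ∀ i < n, vp (W (i + 1)) ≤ Dr i := by
    intro i hi
    rw [hDi i hi]
    omega
  have hbr : ∀ i ω, 0 < p ω → |rnd (Dr i) al ω| ≤ B := by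
    intro i ω hω
    have h1 := rnd_near (al := al) (Dr i) ω
    have h2 : (1 : ℝ) / 2 ^ Dr i ≤ 1 := div_le_self zero_le_one (one_le_pow₀ (by norm_num))
    have h3 := (hb ω hω).1
    have h4 := abs_sub_abs_le_abs_sub (rnd (Dr i) al ω) (al ω)
    linarith
  have key := rect_lab (σ := σ) (s := s) (t := t) (F := F) (p := p) (B := B) (D := C + 2)
    (E := x * Real.log 2 + Real.log (4 * C + 5))
    (S := ∑ i ∈ Finset.range n, e * X * ((W (i + 1) + 1 - W i : ℕ) * (ql : ℕ))) (a₁ := a₁)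
    (a₂ := a₂) (al := fun i => rnd (Dr i) al) (h := h) (X := X) (qa := qa) (ql := ql) (N := N)
    (n := n) (vp := vp) (W := W) hp hB (by linarith)
    (fun i ω hω => ⟨hbr i ω hω, (hb ω hω).2.2.1, (hb ω hω).2.2.2⟩)
    (fun ω hω => (hb ω hω).2.1) hh hql hW mono inc hN
    (fun i hi => rnd_det (hDmono i hi))
    (fun i hi ω hω => (rnd_two (hDnn i hi) ((hDnn i hi).trans (hDmono i hi)) ω).trans
      (div_le_div_of_nonneg_right (by linarith) (by positivity)))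
    (fun ω hω => by
      have h1 := n1 ω hω
      have h2 := rnd_near (al := al) (Dr 0) ω
      have h3 := pw_anti hD0 (zero_le_one (α := ℝ))
      have h4 : (C + 2) / (2 : ℝ) ^ vp (W 0) = C / 2 ^ vp (W 0) + 1 / 2 ^ vp (W 0) +
        1 / 2 ^ vp (W 0) := by ring
      have h5 : (0 : ℝ) ≤ 1 / 2 ^ vp (W 0) := by positivity
      rw [h4]
      rw [abs_le] at h1 h2 ⊢
      constructor <;> linarith [h1.1, h1.2, h2.1, h2.2])
    (fun ω hω => by
      have h1 := n2 ω hω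
      have h2 := rnd_near (al := al) (Dr n) ω
      have h3 := pw_anti (show vp (W n) ≤ Dr n by omega) (zero_le_one (α := ℝ))
      have h4 : (C + 2) / (2 : ℝ) ^ vp (W n) = C / 2 ^ vp (W n) + 1 / 2 ^ vp (W n) +
        1 / 2 ^ vp (W n) := by ring
      have h5 : (0 : ℝ) ≤ 1 / 2 ^ vp (W n) := by positivity
      rw [h4]
      rw [abs_le] at h1 h2 ⊢
      constructor <;> linarith [h1.1, h1.2, h2.1, h2.2])
    Θ Θ' hΘ f1 f2
    (by
      rw [hDn]
      exact CH_rnd hp hC (fun ω ω' g1 g2 g3 => (f2.eq g1 g2 g3).1) n2)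
    (by
      rw [Finset.sum_comm]
      refine Finset.sum_le_sum fun i hi => ?_
      rw [Finset.mem_range] at hi
      rw [hDi i hi]
      refine le_trans ?_ (hS i hi)
      refine sum_conv (fun w q => dfc F p σ X (w + q) (w + vp w + q) N
        (rnd (vp (W (i + 1)) + x) al) s t (fun ω => (rnd (vp (W (i + 1)) + x) al ω, Θ ω)))
        (fun w q => dfc_nonneg hp _ _ _ _ _) (hW i hi))
  -- the sum
  have hsum : (∑ i ∈ Finset.range n, e * X * ((W (i + 1) + 1 - W i : ℕ) * (ql : ℕ)) : ℝ) =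
      e * X * ql * (W n - W 0 + n) := by
    have h1 : ∀ m ≤ n, (∑ i ∈ Finset.range m, e * X * ((W (i + 1) + 1 - W i : ℕ) * (ql : ℕ)) : ℝ) =
        e * X * ql * (W m - W 0 + m) := by
      intro m
      induction m with
      | zero => intro _; simp
      | succ m ih =>
        intro hm
        rw [Finset.sum_range_succ, ih (by omega)]
        have h2 : W m ≤ W (m + 1) + 1 := (hW m (by omega)).trans (Nat.le_succ _)
        rw [Nat.cast_sub h2]
        push_cast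
        ring
    exact h1 n le_rfl
  rw [hsum] at key
  have h5 : e * X * ql * (W n - W 0 + n) / (h * ql) ≤ e * Ch * (W n - W 0 + n) := by
    have g0 : (0 : ℝ) ≤ W n - W 0 + n := by
      have : ((W 0 : ℕ) : ℝ) ≤ W n := by exact_mod_cast hW0 0 n (by omega) le_rfl
      have : (0 : ℝ) ≤ n := Nat.cast_nonneg n
      linarith
    have g1 : e * X * ql * (W n - W 0 + n) / (h * ql) = e * (X / h) * (W n - W 0 + n) := by
      field_simp
    rw [g1]
    have g2 : (X : ℝ) / h ≤ Ch := by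
      rw [div_le_iff₀ hhr]
      exact hCh
    exact mul_le_mul_of_nonneg_right (mul_le_mul_of_nonneg_left g2 he) g0
  have e6 : (2 * (ql : ℝ) + 6 * n * X + x) * Real.log 2 = (2 * ql + 6 * n * X) * Real.log 2 +
    x * Real.log 2 := by ring
  rw [e6]
  linarith

end Pool.S6D
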